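import Pool.Agent.T2h59.LL.AP

/-!
# Topology of the groups: task TP (helper66)
-/

set_option autoImplicit false

noncomputable section

open scoped Polynomial WithZero Topology
open IsDedekindDomain WithZero

namespace Pool.Agent.T2h66.LL

namespace TPx

open Pool.Agent.T2h59.LL

lemma nhds_ball {F : Type} [Field F] [hv : Valued F ℤᵐ⁰] {s : Set F} {a : F} (hs : s ∈ 𝓝 a) :
    ∃ n : ℕ, ∀ y, Valued.v (y - a) ≤ exp (-(n : ℤ)) → y ∈ s := by
  obtain ⟨γ, hγ⟩ := Valued.mem_nhds.1 hs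
  set e := MonoidWithZeroHom.ValueGroup₀.embedding γ.1 with he
  have he0 : e ≠ 0 := (map_ne_zero _).2 γ.ne_zero
  refine ⟨(1 - log e).toNat, fun y hy => hγ ?_⟩
  change Valued.v.restrict (y - a) < γ.1
  rw [Valuation.restrict_lt_iff_lt_embedding]
  refine hy.trans_lt ?_
  rw [← he, ← exp_log he0, exp_lt_exp, log_exp]
  have := Int.self_le_toNat (1 - log e)
  omega

lemma nhds_pi2 {F : Type} [TopologicalSpace F] {s : Set (Fin 2 → Fin 2 → F)}
    {M : Fin 2 → Fin 2 → F} (hs : s ∈ 𝓝 M) : ∃ t : Fin 2 → Fin 2 → Set F,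
      (∀ i j, t i j ∈ 𝓝 (M i j)) ∧ ∀ P : Fin 2 → Fin 2 → F, (∀ i j, P i j ∈ t i j) →
        P ∈ s := by
  rw [nhds_pi, Filter.mem_pi] at hs
  obtain ⟨I, -, t, ht, hts⟩ := hs
  have h2 : ∀ i, ∃ u : Fin 2 → Set F, (∀ j, u j ∈ 𝓝 (M i j)) ∧ ∀ p : Fin 2 → F,
      (∀ j, p j ∈ u j) → p ∈ t i := by
    intro i
    have h3 := ht i
    rw [nhds_pi, Filter.mem_pi] at h3
    obtain ⟨J, -, u, hu, hut⟩ := h3
    exact ⟨u, hu, fun p hp => hut fun j _ => hp j⟩
  choose u hu hut using h2
  exact ⟨u, hu, fun P hP => hts fun i _ => hut i _ (hP i)⟩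

lemma nhds_mat {F : Type} [TopologicalSpace F] {s : Set (Matrix (Fin 2) (Fin 2) F)}
    {M : Matrix (Fin 2) (Fin 2) F} (hs : s ∈ 𝓝 M) : ∃ t : Fin 2 → Fin 2 → Set F,
      (∀ i j, t i j ∈ 𝓝 (M i j)) ∧ ∀ P : Matrix (Fin 2) (Fin 2) F, (∀ i j, P i j ∈ t i j) →
        P ∈ s :=
  nhds_pi2 (F := F) (s := s) (M := M) hs

lemma nhds_mat_ball {F : Type} [Field F] [hv : Valued F ℤᵐ⁰]
    {s : Set (Matrix (Fin 2) (Fin 2) F)} {M : Matrix (Fin 2) (Fin 2) F} (hs : s ∈ 𝓝 M) :
    ∃ n : ℕ, ∀ P : Matrix (Fin 2) (Fin 2) F,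
      (∀ i j, Valued.v (P i j - M i j) ≤ exp (-(n : ℤ))) → P ∈ s := by
  obtain ⟨t, ht, hts⟩ := nhds_mat hs
  choose n hn using fun i j => nhds_ball (ht i j)
  refine ⟨∑ i, ∑ j, n i j, fun P hP => hts P fun i j => hn i j _ ((hP i j).trans ?_)⟩
  rw [exp_le_exp, neg_le_neg_iff, Nat.cast_le]
  exact (Finset.single_le_sum (f := fun j => n i j) (fun _ _ => Nat.zero_le _)
    (Finset.mem_univ j)).trans
    (Finset.single_le_sum (f := fun i => ∑ j, n i j) (fun _ _ => Nat.zero_le _)
      (Finset.mem_univ i))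

lemma cont_nU {R : Type} [CommRing R] [TopologicalSpace R] [IsTopologicalRing R] :
    Continuous (nU : R → GL (Fin 2) R) := by
  rw [Units.continuous_iff]
  constructor
  · refine continuous_matrix fun i j => ?_
    fin_cases i <;> fin_cases j
    · exact continuous_const
    · exact continuous_id
    · exact continuous_const
    · exact continuous_const
  · refine continuous_matrix fun i j => ?_
    fin_cases i <;> fin_cases j
    · exact continuous_const
    · exact continuous_neg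
    · exact continuous_const
    · exact continuous_const

/-- a congruence subgroup over a ring with a set of submultiplicative functions -/
lemma mul_ent {R : Type} [CommRing R] (g h : GL (Fin 2) R) (i j : Fin 2) :
    (g * h : GL (Fin 2) R) i j - (1 : Matrix (Fin 2) (Fin 2) R) i j =
      ∑ k, (g i k - (1 : Matrix (Fin 2) (Fin 2) R) i k) *
        (h k j - (1 : Matrix (Fin 2) (Fin 2) R) k j) +
      ((g i j - (1 : Matrix (Fin 2) (Fin 2) R) i j) +
        (h i j - (1 : Matrix (Fin 2) (Fin 2) R) i j)) := by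
  have h1 : (g : Matrix (Fin 2) (Fin 2) R) * h - 1 = (g - 1) * (h - 1) + ((g - 1) + (h - 1)) := by
    noncomm_ring
  have h2 := congrFun (congrFun h1 i) j
  rw [Units.val_mul]
  rw [Matrix.sub_apply] at h2
  rw [h2, Matrix.add_apply, Matrix.mul_apply]
  rfl

/-- the congruence subgroup -/
def Cg {R : Type} [CommRing R] (J : Set R) (h0 : (0 : R) ∈ J)
    (ha : ∀ x ∈ J, ∀ y ∈ J, x + y ∈ J) (hm : ∀ x ∈ J, ∀ y ∈ J, x * y ∈ J) :
    Subgroup (GL (Fin 2) R) where
  carrier := {g | ∀ i j, (g i j - (1 : Matrix (Fin 2) (Fin 2) R) i j) ∈ J ∧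
    ((g⁻¹ : GL (Fin 2) R) i j - (1 : Matrix (Fin 2) (Fin 2) R) i j) ∈ J}
  one_mem' := by
    intro i j
    rw [inv_one, Units.val_one, sub_self]
    exact ⟨h0, h0⟩
  mul_mem' := by
    have key : ∀ g h : GL (Fin 2) R,
        (∀ i j, (g i j - (1 : Matrix (Fin 2) (Fin 2) R) i j) ∈ J) →
        (∀ i j, (h i j - (1 : Matrix (Fin 2) (Fin 2) R) i j) ∈ J) →
        ∀ i j, ((g * h : GL (Fin 2) R) i j - (1 : Matrix (Fin 2) (Fin 2) R) i j) ∈ J := by
      intro g h hg hh i j
      rw [mul_ent, Fin.sum_univ_two]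
      exact ha _ (ha _ (hm _ (hg _ _) _ (hh _ _)) _ (hm _ (hg _ _) _ (hh _ _))) _
        (ha _ (hg _ _) _ (hh _ _))
    intro g h hg hh i j
    refine ⟨key g h (fun i j => (hg i j).1) (fun i j => (hh i j).1) i j, ?_⟩
    rw [mul_inv_rev]
    exact key _ _ (fun i j => (hh i j).2) (fun i j => (hg i j).2) i j
  inv_mem' := by
    intro g hg i j
    rw [inv_inv]
    exact ⟨(hg i j).2, (hg i j).1⟩

lemma isOpen_Cg {R : Type} [CommRing R] [TopologicalSpace R] [IsTopologicalRing R] (J : Set R)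
    (hJ : IsOpen J) (h0 : (0 : R) ∈ J)
    (ha : ∀ x ∈ J, ∀ y ∈ J, x + y ∈ J) (hm : ∀ x ∈ J, ∀ y ∈ J, x * y ∈ J) :
    IsOpen (Cg J h0 ha hm : Set (GL (Fin 2) R)) := by
  have he : (Cg J h0 ha hm : Set (GL (Fin 2) R)) = ⋂ i, ⋂ j,
      {g : GL (Fin 2) R | (g i j - (1 : Matrix (Fin 2) (Fin 2) R) i j) ∈ J} ∩
      {g : GL (Fin 2) R | ((g⁻¹ : GL (Fin 2) R) i j - (1 : Matrix (Fin 2) (Fin 2) R) i j) ∈ J} := by
    ext g
    simp only [Set.mem_iInter]
    rfl
  rw [he]
  refine isOpen_iInter_of_finite fun i => isOpen_iInter_of_finite fun j => ?_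
  refine (hJ.preimage ?_).inter (hJ.preimage ?_)
  · exact (Units.continuous_val.matrix_elem i j).sub continuous_const
  · exact (Units.continuous_coe_inv.matrix_elem i j).sub continuous_const

/-- the adeles of value at most that of `N` -/
def BN (N : A) : Set Af := {x | ∀ v : Pl, Valued.v (x v) ≤ Valued.v (aF N v)}

lemma isOpen_B1 : IsOpen {x : Af | ∀ v : Pl, Valued.v (x v) ≤ 1} :=
  RestrictedProduct.isOpen_forall_mem fun _ => Valued.isOpen_valuationSubring _

lemma isOpen_BN (N : A) (hN : N ≠ 0) : IsOpen (BN N) := by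
  have hN0 : algebraMap A K N ≠ 0 := (map_ne_zero_iff _ (IsFractionRing.injective A K)).2 hN
  set M : Af := algebraMap K Af (algebraMap A K N)⁻¹ with hM
  have h1 : ∀ v : Pl, M v * aF N v = 1 := by
    intro v
    have h2 : M * aF N = 1 := by
      rw [hM]
      change algebraMap K Af _ * algebraMap K Af (algebraMap A K N) = 1
      rw [← map_mul, inv_mul_cancel₀ hN0, map_one]
    have h3 := congrArg (fun x : Af => x v) h2
    exact h3
  have he : BN N = (fun x : Af => M * x) ⁻¹' {x : Af | ∀ v : Pl, Valued.v (x v) ≤ 1} := by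
    ext x
    refine forall_congr' fun v => ?_
    have h3 : Valued.v (M v) * Valued.v (aF N v) = 1 := by
      rw [← map_mul, h1, map_one]
    have h4 : Valued.v ((M * x) v) = Valued.v (M v) * Valued.v (x v) := by
      rw [mul_app, map_mul]
    rw [h4, ← h3]
    have h5 : (0 : ℤᵐ⁰) < Valued.v (M v) := by
      rw [zero_lt_iff]
      intro h6
      rw [h6, zero_mul] at h3
      exact zero_ne_one h3
    exact (mul_le_mul_iff_right₀ h5).symm
  rw [he]
  exact isOpen_B1.preimage (continuous_const.mul continuous_id)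

lemma exists_small (v : Pl) (n : ℕ) : ∃ p : A, p ≠ 0 ∧ Valued.v (aF p v) ≤ exp (-(n : ℤ)) := by
  obtain ⟨π, hπ⟩ := v.intValuation_exists_uniformizer
  have hπ0 : π ≠ 0 := by
    rintro rfl
    rw [map_zero] at hπ
    exact exp_ne_zero hπ.symm
  refine ⟨π ^ n, pow_ne_zero _ hπ0, ?_⟩
  rw [val_A, map_pow, hπ, ← exp_nsmul]
  simp

lemma nhds_Af {s : Set Af} (hs : s ∈ 𝓝 (0 : Af)) : ∃ N : A, N ≠ 0 ∧ BN N ⊆ s := by
  classical
  have h0 : (RestrictedProduct.structureMap (fun v : Pl => Kv v)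
      (fun v : Pl => (v.adicCompletionIntegers K : Set (Kv v))) Filter.cofinite 0 : Af) = 0 := rfl
  have h1 := RestrictedProduct.nhds_zero_eq_map_structureMap (R := fun v : Pl => Kv v)
    (B := fun v : Pl => v.adicCompletionIntegers K)
    (fun _ => Valued.isOpen_valuationSubring _)
  have h2 := Filter.mem_map.1 ((Filter.ext_iff.1 h1 s).1 hs)
  rw [nhds_pi, Filter.mem_pi] at h2
  obtain ⟨I, hI, t, ht, hts⟩ := h2
  have h3 : ∀ v : Pl, ∃ n : ℕ, ∀ y : v.adicCompletionIntegers K,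
      Valued.v (y : Kv v) ≤ exp (-(n : ℤ)) → y ∈ t v := by
    intro v
    have h4 := ht v
    rw [nhds_subtype_eq_comap, Filter.mem_comap] at h4
    obtain ⟨u, hu, hut⟩ := h4
    obtain ⟨n, hn⟩ := nhds_ball hu
    refine ⟨n, fun y hy => hut (hn _ ?_)⟩
    change Valued.v ((y : Kv v) - 0) ≤ exp (-(n : ℤ))
    rw [sub_zero]
    exact hy
  choose n hn using h3
  choose p hp0 hp using fun v : Pl => exists_small v (n v)
  refine ⟨∏ v ∈ hI.toFinset, p v, Finset.prod_ne_zero_iff.2 fun v _ => hp0 v, fun x hx => ?_⟩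
  have hle : ∀ (a : A) (v : Pl), Valued.v (aF a v) ≤ 1 := by
    intro a v
    rw [val_A]
    exact v.intValuation_le_one a
  have hx1 : ∀ v : Pl, x v ∈ v.adicCompletionIntegers K := fun v => (hx v).trans (hle _ v)
  obtain ⟨x', rfl⟩ := RestrictedProduct.exists_structureMap_eq_of_forall
    (R := fun v : Pl => Kv v) (A := fun v : Pl => (v.adicCompletionIntegers K : Set (Kv v)))
    (𝓕 := Filter.cofinite) (x := x) hx1
  refine hts fun v hv => hn v _ ?_
  have h5 := hx v
  refine h5.trans (le_trans ?_ (hp v))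
  rw [← Finset.mul_prod_erase _ _ (hI.mem_toFinset.2 hv), map_mul, mul_app, map_mul]
  exact mul_le_of_le_one_right' (hle _ v)

end TPx

open TPx Pool.Agent.T2h59.LL in
/-- TP -/
theorem t_TP : S_TP := by
  refine ⟨?_, ?_, ?_, ?_, ?_⟩
  · -- an open subgroup inside the principal congruence subgroup of level one
    have hJ : IsOpen {x : Ki | Valued.v x < 1} := by
      have := open_ball (1 : Ki)
      rwa [map_one] at this
    refine ⟨Cg {x : Ki | Valued.v x < 1} (by simp) (fun x hx y hy => ?_) (fun x hx y hy => ?_),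
      isOpen_Cg _ hJ _ _ _, ?_⟩
    · have hx' : Valued.v x < 1 := hx
      have hy' : Valued.v y < 1 := hy
      exact (Valuation.map_add _ _ _).trans_lt (max_lt hx' hy')
    · change Valued.v (x * y) < 1
      rw [map_mul]
      exact mul_lt_one_of_nonneg_of_lt_one_left zero_le hx (le_of_lt hy)
    · intro g hg
      have key : ∀ x : Ki, ∀ i j, Valued.v (x - (1 : Matrix (Fin 2) (Fin 2) Ki) i j) < 1 →
          Valued.v x ≤ 1 := by
        intro x i j h
        have h1 : x = (x - (1 : Matrix (Fin 2) (Fin 2) Ki) i j) +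
          (1 : Matrix (Fin 2) (Fin 2) Ki) i j := by ring
        rw [h1]
        refine (Valuation.map_add _ _ _).trans (max_le h.le ?_)
        by_cases hij : i = j
        · subst hij; simp
        · simp [Matrix.one_apply_ne hij]
      refine ⟨fun i j => ⟨key _ i j (hg i j).1, key _ i j (hg i j).2⟩, fun i j => ?_⟩
      have h2 : Valued.v (g i j - (1 : Matrix (Fin 2) (Fin 2) Ki) i j) < 1 := (hg i j).1
      rcases eq_or_ne (Valued.v (g i j - (1 : Matrix (Fin 2) (Fin 2) Ki) i j)) 0 with h | h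
      · rw [h]; exact zero_le
      · rw [← exp_log h] at h2 ⊢
        rw [← exp_zero, exp_lt_exp] at h2
        rw [exp_le_exp]
        push_cast
        omega
  · -- open subgroups contain principal congruence subgroups
    intro U hU
    have h1 : (U : Set (GL (Fin 2) Ki)) ∈ 𝓝 1 := hU.mem_nhds U.one_mem
    rw [(Units.isInducing_embedProduct).nhds_eq_comap, Filter.mem_comap] at h1
    obtain ⟨s, hs, hsU⟩ := h1
    rw [map_one, Prod.one_eq_mk] at hs
    obtain ⟨a, ha, b, hb, hab⟩ := mem_nhds_prod_iff.1 hs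
    obtain ⟨n, hn⟩ := nhds_mat_ball ha
    have hb' : MulOpposite.op ⁻¹' b ∈ 𝓝 (1 : Matrix (Fin 2) (Fin 2) Ki) :=
      MulOpposite.continuous_op.continuousAt hb
    obtain ⟨m, hm⟩ := nhds_mat_ball hb'
    refine ⟨n + m, fun g hg => hsU (hab ⟨hn _ fun i j => ?_, hm _ fun i j => ?_⟩)⟩
    · refine (hg.2 i j).trans ?_
      rw [exp_le_exp]
      push_cast
      omega
    · have h2 : ((g⁻¹ : GL (Fin 2) Ki) : Matrix (Fin 2) (Fin 2) Ki) - 1 =
          -((g⁻¹ : GL (Fin 2) Ki) * ((g : Matrix (Fin 2) (Fin 2) Ki) - 1)) := by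
        rw [mul_sub, ← Units.val_mul, inv_mul_cancel, Units.val_one, mul_one]
        abel
      have h3 := congrFun (congrFun h2 i) j
      have h4 : ((g⁻¹ : GL (Fin 2) Ki) : Matrix (Fin 2) (Fin 2) Ki) i j -
          (1 : Matrix (Fin 2) (Fin 2) Ki) i j = -∑ k, (g⁻¹ : GL (Fin 2) Ki) i k *
            (g k j - (1 : Matrix (Fin 2) (Fin 2) Ki) k j) := by
        rw [Matrix.sub_apply, Matrix.neg_apply, Matrix.mul_apply] at h3
        exact h3
      refine (le_of_eq (congrArg Valued.v h4)).trans ?_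
      rw [Valuation.map_neg]
      refine Valuation.map_sum_le _ fun k _ => ?_
      rw [map_mul]
      refine (mul_le_of_le_one_left' (hg.1 i k).2).trans ((hg.2 k j).trans ?_)
      rw [exp_le_exp]
      push_cast
      omega
  · -- congruence subgroups of `GL_2(Af)`
    intro N hN
    have hle : ∀ v : Pl, Valued.v (aF N v) ≤ 1 := by
      intro v
      rw [val_A]
      exact v.intValuation_le_one N
    refine ⟨Cg (BN N) (fun v => ?_) (fun x hx y hy v => ?_) (fun x hx y hy v => ?_),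
      isOpen_Cg _ (isOpen_BN N hN) _ _ _, ?_⟩
    · exact (map_zero (Valued.v : Valuation (Kv v) ℤᵐ⁰)).le.trans zero_le
    · exact (Valuation.map_add _ _ _).trans (max_le (hx v) (hy v))
    · rw [mul_app, map_mul]
      exact (mul_le_of_le_one_left' ((hx v).trans (hle v))).trans (hy v)
    · intro g hg
      have key : ∀ (x : Af) (v : Pl) (i j : Fin 2),
          Valued.v ((x - (1 : Matrix (Fin 2) (Fin 2) Af) i j) v) ≤ Valued.v (aF N v) →
          Valued.v (x v) ≤ 1 := by
        intro x v i j h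
        have h1 : x v = (x - (1 : Matrix (Fin 2) (Fin 2) Af) i j) v +
          ((1 : Matrix (Fin 2) (Fin 2) Af) i j) v := by
          rw [sub_app]; ring
        rw [h1]
        refine (Valuation.map_add _ _ _).trans (max_le (h.trans (hle v)) ?_)
        by_cases hij : i = j
        · subst hij
          rw [Matrix.one_apply_eq]
          exact le_of_eq (map_one (Valued.v : Valuation (Kv v) ℤᵐ⁰))
        · rw [Matrix.one_apply_ne hij]
          exact (map_zero (Valued.v : Valuation (Kv v) ℤᵐ⁰)).le.trans zero_le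
      exact ⟨fun v i j => ⟨key _ v i j ((hg i j).1 v), key _ v i j ((hg i j).2 v)⟩,
        fun v i j => (hg i j).1 v⟩
  · intro U hU
    have h1 : (U : Set (Af × Ki)) ∈ 𝓝 ((0 : Af), (0 : Ki)) := hU.mem_nhds U.zero_mem
    obtain ⟨s, hs, t, ht, hst⟩ := mem_nhds_prod_iff.1 h1
    obtain ⟨N, hN, hNs⟩ := nhds_Af hs
    obtain ⟨r, hr⟩ := nhds_ball ht
    refine ⟨N, hN, r, fun x hx1 hx2 => hst ⟨hNs hx1, hr _ ?_⟩⟩
    rwa [sub_zero]
  · exact (cont_nU.comp continuous_fst).prodMk (cont_nU.comp continuous_snd)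

end Pool.Agent.T2h66.LL
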