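import Pool.Agent.T2h66.LL.Base

/-!
# Admissibility of vectors in the span of finitely many harmonic vectors (helper66)
-/

set_option autoImplicit false

noncomputable section

open scoped Polynomial WithZero
open IsDedekindDomain WithZero

namespace Pool.Agent.T2h66.LL

/-- Let `C` be a stable subspace of finite dimension of a representation `ρ` of `GL_2(K_∞)`, `s` a
finite set of vectors which are harmonic modulo `C`. Then every vector in the span of the
orbits of `s` generates an admissible representation. -/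
theorem adm_of_harm (hLD : S_LD) (hTP : S_TP) (hIF : S_IF) {V : Type} [AddCommGroup V] [Module ℂ V]
    (ρ : Representation ℂ (GL (Fin 2) Ki) V) (C : Submodule ℂ V) [FiniteDimensional ℂ C]
    (hC : ∀ g, C ≤ C.comap (ρ g)) (s : Finset V)
    (hs : ∀ x ∈ s, Harm Valued.v pI (ρ.quotient C hC) (C.mkQ x)) (φ : V)
    (hφ : φ ∈ Submodule.span ℂ {z | ∃ x ∈ s, ∃ g : GL (Fin 2) Ki, z = ρ g x}) :
    AdmissibleSpan ρ φ := by
  classical
  intro U hU
  obtain ⟨r, hr⟩ := hTP.2.1 U hU
  obtain ⟨E, hE, hE'⟩ := hLD Ki Valued.v pI hIF.1 hIF.2.1 (V ⧸ C) (ρ.quotient C hC)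
    (s.image C.mkQ) (by
      intro x hx
      obtain ⟨y, hy, rfl⟩ := Finset.mem_image.1 hx
      exact hs y hy) r
  refine ⟨E.comap C.mkQ, ?_, ?_⟩
  · -- finite-dimensional
    have h1 : (E.comap C.mkQ).FG := by
      refine Submodule.fg_of_fg_map_of_fg_inf_ker C.mkQ ?_ ?_
      · rw [Submodule.map_comap_eq_of_surjective C.mkQ_surjective]
        exact Module.Finite.iff_fg.1 hE
      · have h2 : E.comap C.mkQ ⊓ LinearMap.ker C.mkQ ≤ C := by
          rw [Submodule.ker_mkQ]; exact inf_le_right
        have h3 : FiniteDimensional ℂ ↥(E.comap C.mkQ ⊓ LinearMap.ker C.mkQ) :=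
          Submodule.finiteDimensional_of_le h2
        exact Module.Finite.iff_fg.1 h3
    exact Module.Finite.iff_fg.2 h1
  · intro y hy hyU
    refine hE' (C.mkQ y) ?_ ?_
    · have h1 : y ∈ Submodule.span ℂ {z | ∃ x ∈ s, ∃ g : GL (Fin 2) Ki, z = ρ g x} := by
        refine Submodule.span_le.2 ?_ hy
        rintro _ ⟨h, rfl⟩
        refine Submodule.span_induction (p := fun z _ => ρ h z ∈ Submodule.span ℂ
          {z | ∃ x ∈ s, ∃ g : GL (Fin 2) Ki, z = ρ g x}) ?_ ?_ ?_ ?_ hφ
        · rintro _ ⟨x, hx, g, rfl⟩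
          refine Submodule.subset_span ⟨x, hx, h * g, ?_⟩
          rw [map_mul]; rfl
        · rw [map_zero]; exact Submodule.zero_mem _
        · intro a b _ _ ha hb
          rw [map_add]; exact Submodule.add_mem _ ha hb
        · intro c a _ ha
          rw [map_smul]; exact Submodule.smul_mem _ c ha
      refine Submodule.span_induction (p := fun z _ => C.mkQ z ∈ Submodule.span ℂ
        {z | ∃ x ∈ s.image C.mkQ, ∃ g : GL (Fin 2) Ki, z = (ρ.quotient C hC) g x}) ?_ ?_ ?_ ?_ h1
      · rintro _ ⟨x, hx, g, rfl⟩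
        exact Submodule.subset_span ⟨C.mkQ x, Finset.mem_image_of_mem _ hx, g, rfl⟩
      · rw [map_zero]; exact Submodule.zero_mem _
      · intro a b _ _ ha hb
        rw [map_add]; exact Submodule.add_mem _ ha hb
      · intro c a _ ha
        rw [map_smul]; exact Submodule.smul_mem _ c ha
    · intro u hu
      have h1 : ρ u y = y := hyU u (hr hu)
      change C.mkQ (ρ u y) = C.mkQ y
      rw [h1]

end Pool.Agent.T2h66.LL
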