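import Pool.Agent.T2h66.LL.Stm

/-!
# Basic lemmas (helper66)
-/

set_option autoImplicit false

noncomputable section

open scoped Polynomial WithZero
open IsDedekindDomain WithZero

namespace Pool.Agent.T2h66.LL

@[simp] lemma RR_apply {G : Type} [Group G] (g : G) (φ : G → ℂ) (x : G) :
    RR G g φ x = φ (x * g) := rfl

lemma prod_split (h : GL (Fin 2) Af) (g : GL (Fin 2) Ki) : ((h, g) : GA) = (h, 1) * atI g := by
  simp [atI]

lemma comm_atI (h : GL (Fin 2) Af) (g : GL (Fin 2) Ki) :
    ((h, 1) : GA) * atI g = atI g * (h, 1) := by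
  simp [atI]

/-! ### Smooth vectors -/

section smooth

variable {G V : Type} [Group G] [TopologicalSpace G] [ContinuousMul G] [AddCommGroup V] [Module ℂ V]

/-- the smooth vectors -/
def Sm (ρ : Representation ℂ G V) : Submodule ℂ V where
  carrier := {x | ∃ U : Subgroup G, IsOpen (U : Set G) ∧ ∀ u ∈ U, ρ u x = x}
  zero_mem' := ⟨⊤, isOpen_univ, fun _ _ => map_zero _⟩
  add_mem' := by
    rintro x y ⟨U, hU, hx⟩ ⟨U', hU', hy⟩
    exact ⟨U ⊓ U', hU.inter hU', fun u hu => by rw [map_add, hx u hu.1, hy u hu.2]⟩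
  smul_mem' := by
    rintro c x ⟨U, hU, hx⟩
    exact ⟨U, hU, fun u hu => by rw [map_smul, hx u hu]⟩

lemma Sm_stable (ρ : Representation ℂ G V) (g : G) {x : V} (hx : x ∈ Sm ρ) : ρ g x ∈ Sm ρ := by
  obtain ⟨U, hU, hx⟩ := hx
  refine ⟨U.map (MulAut.conj g).toMonoidHom, ?_, ?_⟩
  · have he : ((U.map (MulAut.conj g).toMonoidHom : Subgroup G) : Set G) =
        (fun x => g⁻¹ * x * g) ⁻¹' (U : Set G) := by
      ext x
      constructor
      · rintro ⟨u, hu, rfl⟩
        simpa [mul_assoc] using hu
      · intro hx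
        refine ⟨g⁻¹ * x * g, hx, ?_⟩
        simp [mul_assoc]
    rw [he]
    exact hU.preimage ((continuous_const.mul continuous_id).mul continuous_const)
  · rintro _ ⟨u, hu, rfl⟩
    have h1 : (MulAut.conj g).toMonoidHom u * g = g * u := by simp [MulAut.conj_apply]
    rw [← Module.End.mul_apply, ← map_mul, h1, map_mul, Module.End.mul_apply, hx u hu]

lemma Sm_eq_top (ρ : Representation ℂ G V) {x : V} (hx : x ∈ Sm ρ) (hg : Gen ρ x) :
    Sm ρ = ⊤ := by
  rw [eq_top_iff, ← hg, Submodule.span_le]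
  rintro _ ⟨g, rfl⟩
  exact Sm_stable ρ g hx

end smooth

/-- irreducibility from the stable subspaces -/
lemma irr_of {G V : Type} [Group G] [AddCommGroup V] [Module ℂ V] [Nontrivial V]
    (ρ : Representation ℂ G V)
    (h : ∀ W : Submodule ℂ V, (∀ g, ∀ y ∈ W, ρ g y ∈ W) → W = ⊥ ∨ W = ⊤) : ρ.IsIrreducible := by
  have : Nontrivial (Subrepresentation ρ) := by
    refine ⟨⟨⊥, ⊤, fun he => ?_⟩⟩
    obtain ⟨x, hx⟩ := exists_ne (0 : V)
    have h1 : x ∈ (⊤ : Subrepresentation ρ) := Submodule.mem_top (R := ℂ)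
    rw [← he] at h1
    exact hx ((Submodule.mem_bot ℂ).1 h1)
  refine ⟨fun W => ?_⟩
  rcases h W.toSubmodule (fun g y hy => W.apply_mem_toSubmodule g hy) with h | h
  · exact Or.inl (Subrepresentation.toSubmodule_injective h)
  · exact Or.inr (Subrepresentation.toSubmodule_injective h)

/-- stable subspaces of an irreducible representation -/
lemma irr_stable {G V : Type} [Group G] [AddCommGroup V] [Module ℂ V]
    {ρ : Representation ℂ G V} (h : ρ.IsIrreducible) (W : Submodule ℂ V)
    (hW : ∀ g, ∀ y ∈ W, ρ g y ∈ W) : W = ⊥ ∨ W = ⊤ := by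
  rcases h.2 (⟨W, fun g y hy => hW g y hy⟩ : Subrepresentation ρ) with h | h
  · left
    exact congrArg Subrepresentation.toSubmodule h
  · right
    exact congrArg Subrepresentation.toSubmodule h

lemma irr_nontrivial {G V : Type} [Group G] [AddCommGroup V] [Module ℂ V]
    {ρ : Representation ℂ G V} (h : ρ.IsIrreducible) : Nontrivial V := by
  by_contra hc
  rw [not_nontrivial_iff_subsingleton] at hc
  have h1 : (⊥ : Subrepresentation ρ) = ⊤ := by
    apply Subrepresentation.toSubmodule_injective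
    exact Subsingleton.elim _ _
  exact bot_ne_top h1

/-- a representation is irreducible if its pull-back is -/
lemma irr_comp {G H V : Type} [Group G] [Group H] [AddCommGroup V] [Module ℂ V]
    (ρ : Representation ℂ G V) (ι : H →* G)
    (h : Representation.IsIrreducible (ρ.comp ι : Representation ℂ H V)) : ρ.IsIrreducible := by
  have := irr_nontrivial h
  exact irr_of ρ fun W hW => irr_stable h W fun g y hy => hW (ι g) y hy

end Pool.Agent.T2h66.LL
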