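import Mathlib

/-!
# Definitions for `MP_5ae62c_nt`: automorphic representations of `GL_2` over `K = F_2(t)`

(helper66)
-/

set_option autoImplicit false

noncomputable section

open scoped Polynomial WithZero
open IsDedekindDomain

namespace Pool.Agent.T2h66.LL

/-! ### The field `K = F_2(t)`, its places and its adeles -/

/-- `A = F_2[t]` -/
abbrev A : Type := Polynomial (ZMod 2)

/-- `K = F_2(t)` -/
abbrev K : Type := RatFunc (ZMod 2)

instance instDecidableEqK : DecidableEq K := Classical.decEq _

/-- the places of `K` other than `∞` -/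
abbrev Pl : Type := HeightOneSpectrum A

instance instDecidableEqPl : DecidableEq Pl := Classical.decEq _

/-- the completion of `K` at a place `v ≠ ∞` -/
abbrev Kv (v : Pl) : Type := v.adicCompletion K

/-- the completion of `K` at `∞`, the local field `F = F_2((1/t))` -/
abbrev Ki : Type := RatFunc.CompletionAtInfty (ZMod 2)

/-- the ring of adeles away from `∞`; the adele ring of `K` is `Af × Ki` -/
abbrev Af : Type := FiniteAdeleRing A K

/-- the group `GL_2` of the adele ring `Af × Ki` of `K`, as a topological group -/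
abbrev GA : Type := GL (Fin 2) Af × GL (Fin 2) Ki

/-- the diagonal embedding of `GL_2(K)` -/
def diagK : GL (Fin 2) K →* GA :=
  (Matrix.GeneralLinearGroup.map (algebraMap K Af)).prod
    (Matrix.GeneralLinearGroup.map (algebraMap K Ki))

/-- the adele which is `x` at `v` and `a` at all other places -/
def upd (v : Pl) (x : Kv v) (a : Af) : Af :=
  ⟨Function.update a.1 v x, by
    have h := a.2
    rw [Filter.eventually_cofinite] at h ⊢
    refine (h.union (Set.finite_singleton v)).subset fun w hw => ?_
    by_cases hwv : w = v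
    · exact Or.inr hwv
    · left
      simpa [Function.update_of_ne hwv] using! hw⟩

lemma upd_same (v : Pl) (x : Kv v) (a : Af) : upd v x a v = x :=
  Function.update_self v x a.1

lemma upd_ne (v : Pl) (x : Kv v) (a : Af) {w : Pl} (h : w ≠ v) : upd v x a w = a w :=
  Function.update_of_ne h x a.1

/-- evaluation of adeles at `v` -/
def ev (v : Pl) : Af →+* Kv v where
  toFun a := a v
  map_one' := rfl
  map_mul' _ _ := rfl
  map_zero' := rfl
  map_add' _ _ := rfl

/-- the matrix over `Af` which is `M` at `v` and the identity matrix at all other places -/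
def locMat (v : Pl) : Matrix (Fin 2) (Fin 2) (Kv v) →* Matrix (Fin 2) (Fin 2) Af where
  toFun M := Matrix.of fun i j => upd v (M i j) ((1 : Matrix (Fin 2) (Fin 2) Af) i j)
  map_one' := by
    ext i j w
    by_cases hw : w = v
    · subst hw
      simp only [Matrix.of_apply, upd_same]
      fin_cases i <;> fin_cases j <;> rfl
    · simp only [Matrix.of_apply, upd_ne _ _ _ hw]
  map_mul' M N := by
    ext i j w
    have key : ∀ P Q : Matrix (Fin 2) (Fin 2) Af, (P * Q) i j w = ∑ k, P i k w * Q k j w := by
      intro P Q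
      rw [Matrix.mul_apply]
      exact map_sum (ev w) (fun k => P i k * Q k j) Finset.univ
    rw [key]
    by_cases hw : w = v
    · subst hw
      simp only [Matrix.of_apply, upd_same, Matrix.mul_apply]
    · simp only [Matrix.of_apply, upd_ne _ _ _ hw]
      rw [← key, one_mul]

/-- the embedding of `GL_2(K_v)` at the place `v` -/
def atV (v : Pl) : GL (Fin 2) (Kv v) →* GA := (Units.map (locMat v)).prod 1

/-- the embedding of `GL_2(K_∞)` at the place `∞` -/
def atI : GL (Fin 2) Ki →* GA := MonoidHom.inr _ _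

/-- the integral matrices with integral inverse, `GL_2(O)`, for a valued field with ring of
integers `O` -/
def GO {F : Type} [Field F] (v : Valuation F ℤᵐ⁰) : Subgroup (GL (Fin 2) F) where
  carrier := {g | ∀ i j, v (g i j) ≤ 1 ∧ v ((g⁻¹ : GL (Fin 2) F) i j) ≤ 1}
  one_mem' := by
    intro i j
    rw [inv_one]
    have : v ((1 : GL (Fin 2) F) i j) ≤ 1 := by
      rw [Units.val_one]
      by_cases h : i = j
      · subst h; simp
      · simp [Matrix.one_apply_ne h]
    exact ⟨this, this⟩
  mul_mem' := by
    intro g h hg hh i j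
    have key : ∀ a b : GL (Fin 2) F, (∀ i j, v (a i j) ≤ 1) → (∀ i j, v (b i j) ≤ 1) →
        v ((a * b : GL (Fin 2) F) i j) ≤ 1 := by
      intro a b ha hb
      rw [Units.val_mul, Matrix.mul_apply]
      refine v.map_sum_le fun k _ => ?_
      rw [map_mul]
      exact mul_le_one' (ha i k) (hb k j)
    refine ⟨key g h (fun i j => (hg i j).1) (fun i j => (hh i j).1), ?_⟩
    rw [mul_inv_rev]
    exact key h⁻¹ g⁻¹ (fun i j => (hh i j).2) (fun i j => (hg i j).2)
  inv_mem' := by
    intro g hg i j
    rw [inv_inv]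
    exact ⟨(hg i j).2, (hg i j).1⟩

/-- the upper triangular unipotent matrix `(1 x; 0 1)` -/
def nU {R : Type} [CommRing R] (x : R) : GL (Fin 2) R where
  val := !![1, x; 0, 1]
  inv := !![1, -x; 0, 1]
  val_inv := by ext i j; fin_cases i <;> fin_cases j <;> simp [Matrix.mul_apply, Fin.sum_univ_two]
  inv_val := by ext i j; fin_cases i <;> fin_cases j <;> simp [Matrix.mul_apply, Fin.sum_univ_two]

/-- the upper triangular matrix `(a b; 0 d)` -/
def bor {R : Type} [CommRing R] (a : Rˣ) (b : R) (d : Rˣ) : GL (Fin 2) R where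
  val := !![(a : R), b; 0, (d : R)]
  inv := !![((a⁻¹ : Rˣ) : R), -((a⁻¹ : Rˣ) : R) * b * ((d⁻¹ : Rˣ) : R); 0, ((d⁻¹ : Rˣ) : R)]
  val_inv := by
    ext i j; fin_cases i <;> fin_cases j <;> simp [Matrix.mul_apply, Fin.sum_univ_two]
    rw [mul_assoc, ← mul_assoc (a : R) _ _, Units.mul_inv, one_mul]; ring
  inv_val := by
    ext i j; fin_cases i <;> fin_cases j <;>
      simp [Matrix.mul_apply, Fin.sum_univ_two, mul_assoc]

/-- the adelic matrix `(1 x; 0 1)` -/
def nA (x : Af × Ki) : GA := (nU x.1, nU x.2)

/-! ### Irreducible smooth representations -/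

/-- `Irr(G)`: the irreducible smooth complex representations of a topological group `G`
(smooth: every vector is fixed by an open subgroup) -/
structure Irr (G : Type) [Group G] [TopologicalSpace G] where
  V : Type
  [acg : AddCommGroup V]
  [mod : Module ℂ V]
  ρ : Representation ℂ G V
  irreducible : ρ.IsIrreducible
  smooth : ∀ x : V, ∃ U : Subgroup G, IsOpen (U : Set G) ∧ ∀ u ∈ U, ρ u x = x

attribute [instance] Irr.acg Irr.mod

/-- isomorphic representations -/
def Iso {G : Type} [Group G] [TopologicalSpace G] (σ τ : Irr G) : Prop :=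
  Nonempty (σ.ρ.Equiv τ.ρ)

/-- Let `π = ⊗ π_y` be a representation of `GL_2` of the adeles and let `ι` be the embedding of
`GL_2(K_y)`. The local component `π_y` is the irreducible representation `σ` of `GL_2(K_y)` such
that the restriction of `π` to `GL_2(K_y)` is a sum of copies of `σ`. -/
def HasComp {G H : Type} [Group G] [TopologicalSpace G] [Group H] [TopologicalSpace H]
    (ι : H →* G) (π : Irr G) (σ : Irr H) : Prop :=
  (⨆ f : σ.ρ.IntertwiningMap (π.ρ.comp ι), LinearMap.range f.toLinearMap) = ⊤

/-- `π` is unramified at a place: there is a nonzero vector fixed by `GL_2` of the ring of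
integers -/
def Unram {G H : Type} [Group G] [TopologicalSpace G] [Group H]
    (ι : H →* G) (U : Subgroup H) (π : Irr G) : Prop :=
  ∃ x : π.V, x ≠ 0 ∧ ∀ u ∈ U, π.ρ (ι u) x = x

/-! ### Automorphic forms and automorphic representations -/

/-- the right regular representation of a group on the functions on it -/
def RR (G : Type) [Group G] : Representation ℂ G (G → ℂ) where
  toFun g :=
    { toFun := fun φ x => φ (x * g)
      map_add' := fun _ _ => rfl
      map_smul' := fun _ _ => rfl }
  map_one' := by ext φ x; simp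
  map_mul' g h := by ext φ x; simp [mul_assoc]

/-- the representation of `H` generated by a vector `x` is admissible: for every open subgroup
`U` of `H` its subspace of vectors fixed by `U` has finite dimension -/
def AdmissibleSpan {H V : Type} [Group H] [TopologicalSpace H] [AddCommGroup V] [Module ℂ V]
    (ρ : Representation ℂ H V) (x : V) : Prop :=
  ∀ U : Subgroup H, IsOpen (U : Set H) →
    ∃ W : Submodule ℂ V, FiniteDimensional ℂ W ∧
      ∀ y ∈ Submodule.span ℂ (Set.range fun h => ρ h x), (∀ u ∈ U, ρ u y = y) → y ∈ W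

/-- Automorphic forms on `GL_2` over `K` (Borel and Jacquet, Automorphic forms and automorphic
representations, 5.7 and 5.8): functions on `GL_2(K) \ GL_2(𝔸)` which are fixed by an open subgroup
under right translations and generate an admissible representation of `GL_2(K_y)`, for one place
`y` (equivalently, for all of them). -/
structure IsAutForm (φ : GA → ℂ) : Prop where
  left_inv : ∀ (γ : GL (Fin 2) K) (g : GA), φ (diagK γ * g) = φ g
  smooth : ∃ U : Subgroup GA, IsOpen (U : Set GA) ∧ ∀ u ∈ U, ∀ g, φ (g * u) = φ g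
  adm : AdmissibleSpan ((RR GA).comp atI) φ ∨ ∃ v : Pl, AdmissibleSpan ((RR GA).comp (atV v)) φ

/-- the discrete cocompact subgroup `K` of the adeles -/
def KK : AddSubgroup (Af × Ki) :=
  AddMonoidHom.range ((algebraMap K Af).toAddMonoidHom.prod (algebraMap K Ki).toAddMonoidHom)

/-- Cusp forms: automorphic forms with constant term zero, that is, the integral of
`x ↦ φ((1 x; 0 1) g)` over the compact group `𝔸 / K` is zero for all `g`. The function
is invariant under all sufficiently small open subgroups `U` of `𝔸`, and the integral is the mean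
value over the finite group `𝔸 / (K + U)`. -/
structure IsCuspForm (φ : GA → ℂ) : Prop extends IsAutForm φ where
  cusp : ∀ g : GA, ∃ U₀ : AddSubgroup (Af × Ki), IsOpen (U₀ : Set (Af × Ki)) ∧
    ∀ U : AddSubgroup (Af × Ki), IsOpen (U : Set (Af × Ki)) → U ≤ U₀ →
      Finite ((Af × Ki) ⧸ (KK ⊔ U)) ∧
      (∀ x, ∀ u ∈ U, φ (nA (x + u) * g) = φ (nA x * g)) ∧
      ∑ᶠ q : (Af × Ki) ⧸ (KK ⊔ U), φ (nA q.out * g) = 0

/-- `π` is isomorphic to a quotient of a representation by right translations on a space of
functions with the property `P` -/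
def IsSubquotient (P : (GA → ℂ) → Prop) (π : Irr GA) : Prop :=
  ∃ W : Subrepresentation (RR GA), (∀ φ ∈ W, P φ) ∧
    ∃ f : W.toRepresentation.IntertwiningMap π.ρ, Function.Surjective f

/-- automorphic representations: the irreducible subquotients of the space of automorphic forms -/
def IsAutomorphic (π : Irr GA) : Prop := IsSubquotient IsAutForm π

/-- cuspidal automorphic representations: the irreducible subquotients of the space of cusp
forms -/
def IsCuspidal (π : Irr GA) : Prop := IsSubquotient IsCuspForm π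

/-! ### Isobaric representations of `GL_2` -/

/-- the normalised absolute value of a local field with `q` elements in the residue field:
`q ^ n` for elements of value `exp n` -/
def nrm {F : Type} [Field F] (v : Valuation F ℤᵐ⁰) (q : ℕ) (x : Fˣ) : ℝ :=
  (q : ℝ) ^ (WithZero.log (v x))

/-- The normalised induced representation `I(μ₁, μ₂)` of `GL_2(F)`: the locally constant functions
`f` on `GL_2(F)` such that `f((a b; 0 d) g) = μ₁(a) μ₂(d) |a/d|^(1/2) f(g)`. -/
def Ind {F : Type} [Field F] [TopologicalSpace F] [IsTopologicalRing F] (v : Valuation F ℤᵐ⁰) (q : ℕ)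
    (μ₁ μ₂ : Fˣ →* ℂˣ) : Subrepresentation (RR (GL (Fin 2) F)) where
  toSubmodule :=
    { carrier := {f | (∃ U : Subgroup (GL (Fin 2) F), IsOpen (U : Set (GL (Fin 2) F)) ∧
          ∀ u ∈ U, ∀ g, f (g * u) = f g) ∧
        ∀ (a d : Fˣ) (b : F) (g : GL (Fin 2) F),
          f (bor a b d * g) = μ₁ a * μ₂ d * ((nrm v q (a / d) ^ (1 / 2 : ℝ) : ℝ) : ℂ) * f g}
      zero_mem' := by
        refine ⟨⟨⊤, isOpen_univ, fun _ _ _ => rfl⟩, fun a d b g => ?_⟩
        simp
      add_mem' := by
        rintro f g ⟨⟨U, hU, hf⟩, hf'⟩ ⟨⟨U', hU', hg⟩, hg'⟩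
        refine ⟨⟨U ⊓ U', hU.inter hU', fun u hu x => ?_⟩, fun a d b x => ?_⟩
        · simp only [Pi.add_apply]
          rw [hf u hu.1 x, hg u hu.2 x]
        · simp only [Pi.add_apply]
          rw [hf' a d b x, hg' a d b x]; ring
      smul_mem' := by
        rintro c f ⟨⟨U, hU, hf⟩, hf'⟩
        refine ⟨⟨U, hU, fun u hu x => ?_⟩, fun a d b x => ?_⟩
        · simp only [Pi.smul_apply]
          rw [hf u hu x]
        · simp only [Pi.smul_apply, smul_eq_mul]
          rw [hf' a d b x]; ring }
  apply_mem_toSubmodule := by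
    rintro h f ⟨⟨U, hU, hf⟩, hf'⟩
    refine ⟨⟨U.map (MulAut.conj h).toMonoidHom, ?_, ?_⟩, fun a d b x => ?_⟩
    · have he : ((U.map (MulAut.conj h).toMonoidHom : Subgroup (GL (Fin 2) F)) :
          Set (GL (Fin 2) F)) = (fun x => h⁻¹ * x * h) ⁻¹' (U : Set (GL (Fin 2) F)) := by
        ext x
        constructor
        · rintro ⟨u, hu, rfl⟩
          simpa [mul_assoc] using hu
        · intro hx
          refine ⟨h⁻¹ * x * h, hx, ?_⟩
          simp [mul_assoc]
      rw [he]
      exact hU.preimage ((continuous_const.mul continuous_id).mul continuous_const)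
    · rintro _ ⟨u, hu, rfl⟩ g
      change f (g * (h * u * h⁻¹) * h) = f (g * h)
      rw [← hf u hu (g * h)]
      congr 1
      group
    · change f (bor a b d * x * h) = _
      rw [mul_assoc, hf']
      rfl

/-- Hecke quasi-characters: continuous homomorphisms from the ideles `Afˣ × Kiˣ` of `K` to `ℂˣ`
which are trivial on `Kˣ` -/
def IsHecke (χ : Afˣ × Kiˣ →* ℂˣ) : Prop :=
  Continuous χ ∧ ∀ x : Kˣ, χ (Units.map (algebraMap K Af : K →* Af) x,
    Units.map (algebraMap K Ki : K →* Ki) x) = 1

/-- the embedding of `K_v` in the adeles, with component `1` outside `v` -/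
def updHom (v : Pl) : Kv v →* Af where
  toFun x := upd v x 1
  map_one' := by
    ext w
    by_cases hw : w = v
    · subst hw; rw [upd_same]; rfl
    · rw [upd_ne _ _ _ hw]
  map_mul' x y := by
    ext w
    have h1 : (upd v x 1 * upd v y 1) w = upd v x 1 w * upd v y 1 w := rfl
    rw [h1]
    by_cases hw : w = v
    · subst hw; simp only [upd_same]
    · simp only [upd_ne _ _ _ hw]
      have : (1 : Af) w = (1 : Kv w) := rfl
      rw [this, one_mul]

/-- the component at `v` of a Hecke quasi-character -/
def chiV (χ : Afˣ × Kiˣ →* ℂˣ) (v : Pl) : (Kv v)ˣ →* ℂˣ :=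
  χ.comp ((Units.map (updHom v)).prod 1)

/-- the component at `∞` of a Hecke quasi-character -/
def chiI (χ : Afˣ × Kiˣ →* ℂˣ) : Kiˣ →* ℂˣ := χ.comp (MonoidHom.inr _ _)

/-- the number of elements of the residue field of `v` -/
def qv (v : Pl) : ℕ := Nat.card (A ⧸ v.asIdeal)

/-- `|χ| = |·|^s` -/
def HasExponent (χ : Afˣ × Kiˣ →* ℂˣ) (s : ℝ) : Prop :=
  (∀ (v : Pl) (x : (Kv v)ˣ), ‖((chiV χ v x : ℂˣ) : ℂ)‖ = nrm Valued.v (qv v) x ^ s) ∧
    ∀ x : Kiˣ, ‖((chiI χ x : ℂˣ) : ℂ)‖ = nrm Valued.v 2 x ^ s

/-- The isobaric automorphic representations of `GL_2` over `K`: the cuspidal ones, and the isobaric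
sums `χ₁ ⊞ χ₂` of two Hecke quasi-characters, `|χ_i| = |·|^(s_i)`, `s₂ ≤ s₁`: these are the
automorphic representations whose component at every place `y` is the Langlands quotient of the
induced representation `I(χ₁, χ₂)` of `GL_2(K_y)`, in other words the irreducible
subrepresentation of `I(χ₂, χ₁)`. -/
def IsIsobaric (π : Irr GA) : Prop :=
  IsCuspidal π ∨ (IsAutomorphic π ∧ ∃ (χ₁ χ₂ : Afˣ × Kiˣ →* ℂˣ) (s₁ s₂ : ℝ),
    IsHecke χ₁ ∧ IsHecke χ₂ ∧ HasExponent χ₁ s₁ ∧ HasExponent χ₂ s₂ ∧ s₂ ≤ s₁ ∧
    (∀ v : Pl, ∃ σ : Irr (GL (Fin 2) (Kv v)), HasComp (atV v) π σ ∧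
      ∃ j : σ.ρ.IntertwiningMap (Ind Valued.v (qv v) (chiV χ₂ v) (chiV χ₁ v)).toRepresentation,
        Function.Injective j) ∧
    ∃ σ : Irr (GL (Fin 2) Ki), HasComp atI π σ ∧
      ∃ j : σ.ρ.IntertwiningMap (Ind Valued.v 2 (chiI χ₂) (chiI χ₁)).toRepresentation,
        Function.Injective j)

/-- `π'` is a lifting of `π` for the standard representation of `GL_2(ℂ)`, for which the unramified
lifting is the identity: `π'_y = π_y` at all places `y` at which `π` is unramified -/
def IsLift (π π' : Irr GA) : Prop :=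
  (∀ v : Pl, Unram (atV v) (GO Valued.v) π →
    ∀ σ : Irr (GL (Fin 2) (Kv v)), HasComp (atV v) π σ → HasComp (atV v) π' σ) ∧
  (Unram atI (GO Valued.v) π →
    ∀ σ : Irr (GL (Fin 2) Ki), HasComp atI π σ → HasComp atI π' σ)

end Pool.Agent.T2h66.LL
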