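import Pool.Agent.T2h66.LL.P1b

/-!
# The main theorem from the tasks (helper66)
-/

set_option autoImplicit false

noncomputable section

open scoped Polynomial WithZero
open IsDedekindDomain WithZero

namespace Pool.Agent.T2h66.LL

lemma cuspidal_automorphic {π : Irr GA} (h : IsCuspidal π) : IsAutomorphic π := by
  obtain ⟨W, hW, f, hf⟩ := h
  exact ⟨W, fun φ hφ => (hW φ hφ).toIsAutForm, f, hf⟩

lemma continuous_atI : Continuous atI := by
  change Continuous fun g : GL (Fin 2) Ki => ((1, g) : GA)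
  exact continuous_const.prodMk continuous_id

/-- the restriction to `GL_2(K_∞)`, when irreducible -/
def resI (π : Irr GA)
    (h : Representation.IsIrreducible (π.ρ.comp atI : Representation ℂ (GL (Fin 2) Ki) π.V)) :
    Irr (GL (Fin 2) Ki) where
  V := π.V
  ρ := π.ρ.comp atI
  irreducible := h
  smooth := fun x => by
    obtain ⟨U, hU, hx⟩ := π.smooth x
    exact ⟨U.comap atI, hU.preimage continuous_atI, fun u hu => hx _ hu⟩

lemma hasComp_resI (π : Irr GA)
    (h : Representation.IsIrreducible (π.ρ.comp atI : Representation ℂ (GL (Fin 2) Ki) π.V)) :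
    HasComp atI π (resI π h) := by
  unfold HasComp
  rw [eq_top_iff]
  let f : (resI π h).ρ.IntertwiningMap (π.ρ.comp atI) := ⟨LinearMap.id, fun g => rfl⟩
  refine le_trans ?_ (le_iSup (fun f : (resI π h).ρ.IntertwiningMap (π.ρ.comp atI) =>
    LinearMap.range f.toLinearMap) f)
  rintro x -
  exact ⟨x, rfl⟩

lemma hasComp_triv {H : Type} [Group H] [TopologicalSpace H] (ι : H →* GA) (σ : Irr H)
    (h : ∀ (g : H) (x : σ.V), σ.ρ g x = x) : HasComp ι (triv GA) σ := by
  have := irr_nontrivial σ.irreducible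
  obtain ⟨x, hx⟩ := exists_ne (0 : σ.V)
  obtain ⟨μ, hμ⟩ : ∃ μ : σ.V →ₗ[ℂ] ℂ, μ x ≠ 0 := by
    by_contra hc
    push Not at hc
    exact hx ((Module.forall_dual_apply_eq_zero_iff ℂ x).1 hc)
  let f : σ.ρ.IntertwiningMap ((triv GA).ρ.comp ι) := ⟨μ, fun g => by
    ext y
    change μ (σ.ρ g y) = μ y
    rw [h]⟩
  unfold HasComp
  rw [eq_top_iff]
  refine le_trans ?_ (le_iSup (fun f : σ.ρ.IntertwiningMap ((triv GA).ρ.comp ι) =>
    LinearMap.range f.toLinearMap) f)
  rintro (y : ℂ) -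
  refine ⟨(y / μ x) • x, ?_⟩
  change μ ((y / μ x) • x) = y
  rw [map_smul, smul_eq_mul, div_mul_cancel₀ _ hμ]

/-- a component of a representation on which `ι H` acts trivially is trivial -/
lemma triv_of_comp {H : Type} [Group H] [TopologicalSpace H] (ι : H →* GA) (π : Irr GA)
    (hπ : ∀ h, π.ρ (ι h) = 1) (σ : Irr H) (hc : HasComp ι π σ) (g : H) (x : σ.V) :
    σ.ρ g x = x := by
  have hn := irr_nontrivial π.irreducible
  obtain ⟨f, hf⟩ : ∃ f : σ.ρ.IntertwiningMap (π.ρ.comp ι), LinearMap.range f.toLinearMap ≠ ⊥ := by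
    by_contra hcon
    push Not at hcon
    unfold HasComp at hc
    have h1 : (⨆ f : σ.ρ.IntertwiningMap (π.ρ.comp ι), LinearMap.range f.toLinearMap) = ⊥ := by
      rw [iSup_eq_bot]
      exact hcon
    rw [h1] at hc
    obtain ⟨z, hz⟩ := exists_ne (0 : π.V)
    have h2 : z ∈ (⊤ : Submodule ℂ π.V) := trivial
    rw [← hc] at h2
    exact hz ((Submodule.mem_bot ℂ).1 h2)
  have hfe : ∀ (g : H) (x : σ.V), f.toLinearMap (σ.ρ g x) = f.toLinearMap x := by
    intro g x
    have h1 : f.toLinearMap (σ.ρ g x) = (π.ρ (ι g)) (f.toLinearMap x) :=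
      LinearMap.congr_fun (f.isIntertwining' g) x
    rw [h1, hπ]
    rfl
  have hk : LinearMap.ker f.toLinearMap = ⊥ := by
    rcases irr_stable σ.irreducible (LinearMap.ker f.toLinearMap) (fun g y hy => by
      rw [LinearMap.mem_ker] at hy ⊢
      rw [hfe, hy]) with h | h
    · exact h
    · exact absurd (LinearMap.range_eq_bot.2 (LinearMap.ker_eq_top.1 h)) hf
  have h2 : σ.ρ g x - x ∈ LinearMap.ker f.toLinearMap := by
    rw [LinearMap.mem_ker, map_sub, hfe, sub_self]
  rw [hk, Submodule.mem_bot, sub_eq_zero] at h2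
  exact h2

/-- MAIN -/
theorem t_MAIN : S_P1 → S_P2 → S_CO → S_LB → S_LE → S_TV → S_IF → S_MAIN := by
  rintro ⟨π, hπa, hπf, x, hx0, hx, hxg⟩ ⟨π', hπ', s, hs, hs'⟩ hCO hLB hLE hTV hIF ⟨l, -, hl⟩
  have hirr := hLB Ki Valued.v pI hIF.1 hIF.2.1 _ _ x hx hx0 hxg
  set σ := resI π hirr with hσ
  have hxσ : Harm Valued.v pI σ.ρ (x : σ.V) := hx
  have hgσ : Gen σ.ρ (x : σ.V) := hxg
  have hnofix : ∀ y : σ.V, (∀ u ∈ GO (Valued.v : Valuation Ki ℤᵐ⁰), σ.ρ u y = y) → y = 0 :=
    hLE Ki Valued.v pI hIF.1 hIF.2.1 σ.V σ.ρ x hxσ hgσ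
  have hlift : IsLift π (triv GA) := by
    constructor
    · intro v _ τ hτ
      refine hasComp_triv _ τ fun g y => ?_
      refine triv_of_comp (atV v) π (fun h => ?_) τ hτ g y
      exact hπf _
    · rintro ⟨y, hy0, hy⟩
      exact absurd (hnofix y hy) hy0
  have h1 : Iso (triv (GL (Fin 2) Ki)) (l σ) :=
    hl π (triv GA) hπa hTV hlift σ (triv _) (hasComp_resI π hirr)
      (hasComp_triv _ _ fun _ _ => rfl)
  have hcomp : HasComp atI π' σ := hCO π' s hs hs' σ x hxσ hx0 hgσ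
  have h2 : Iso σ (l σ) :=
    hl π' π' (cuspidal_automorphic hπ') (Or.inl hπ') ⟨fun _ _ _ h => h, fun _ _ h => h⟩ σ σ
      hcomp hcomp
  obtain ⟨e⟩ := h1
  obtain ⟨e'⟩ := h2
  have h3 : e'.symm (e (1 : ℂ)) = 0 := by
    refine hnofix _ fun u _ => ?_
    have h4 : (l σ).ρ u (e (1 : ℂ)) = e (1 : ℂ) := by
      have := Representation.IntertwiningMap.isIntertwining _ _ e.toIntertwiningMap u (1 : ℂ)
      exact this.symm
    have h5 := Representation.IntertwiningMap.isIntertwining _ _ e'.symm.toIntertwiningMap u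
      (e (1 : ℂ))
    refine h5.symm.trans ?_
    rw [h4]
    rfl
  have h6 : e (1 : ℂ) = 0 := by
    have := congrArg e' h3
    rw [Representation.Equiv.apply_symm_apply] at this
    rw [this]
    exact map_zero e'.toLinearMap
  have h7 : (1 : ℂ) = 0 := by
    have := congrArg e.symm h6
    exact (Representation.Equiv.symm_apply_apply e (1 : ℂ)).symm.trans
      (this.trans (map_zero e.symm.toLinearMap))
  exact one_ne_zero h7

end Pool.Agent.T2h66.LL
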