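import Pool.Agent.T2h66.LL.Adm

/-!
# The constituent with the Steinberg representation at `∞`, trivial elsewhere (helper66)
-/

set_option autoImplicit false

noncomputable section

open scoped Polynomial WithZero
open IsDedekindDomain WithZero

namespace Pool.Agent.T2h66.LL

namespace P1

/-- the Atkin-Lehner element -/
def w : GL (Fin 2) Ki := om * da pI

lemma om_mul_om {R : Type} [CommRing R] : (om : GL (Fin 2) R) * om = 1 := by
  ext i j
  fin_cases i <;> fin_cases j <;> simp [om, Matrix.mul_apply, Fin.sum_univ_two]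

lemma w_mul_w : w * w = sc pI := by
  ext i j
  fin_cases i <;> fin_cases j <;>
    simp [w, om, da, sc, bor, Matrix.mul_apply, Fin.sum_univ_two]

lemma om_mem : (om : GL (Fin 2) Ki) ∈ GO (Valued.v : Valuation Ki ℤᵐ⁰) := by
  have hi : (om : GL (Fin 2) Ki)⁻¹ = om := inv_eq_of_mul_eq_one_left om_mul_om
  intro i j
  rw [hi]
  have : Valued.v ((om : GL (Fin 2) Ki) i j) ≤ 1 := by
    fin_cases i <;> fin_cases j <;> simp [om]
  exact ⟨this, this⟩

lemma nU_mem {x : Ki} (hx : Valued.v x ≤ 1) : nU x ∈ GO (Valued.v : Valuation Ki ℤᵐ⁰) := by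
  intro i j
  have hi : ((nU x)⁻¹ : GL (Fin 2) Ki) = nU (-x) := by
    rw [inv_eq_iff_mul_eq_one]
    ext i j
    fin_cases i <;> fin_cases j <;> simp [nU, Matrix.mul_apply, Fin.sum_univ_two]
  rw [hi]
  constructor
  · fin_cases i <;> fin_cases j <;> simp [nU, hx]
  · fin_cases i <;> fin_cases j <;> simp [nU, hx, Valuation.map_neg]

lemma one_mem_GO : (1 : GL (Fin 2) Ki) ∈ GO (Valued.v : Valuation Ki ℤᵐ⁰) := one_mem _

lemma sc_one : sc (1 : Kiˣ) = 1 := by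
  ext i j
  fin_cases i <;> fin_cases j <;> simp [sc, bor]

section

variable {E : GA → ℂ} (hE : LevelOne E)
include hE

lemma E_GO (g : GA) {k : GL (Fin 2) Ki} (hk : k ∈ GO (Valued.v : Valuation Ki ℤᵐ⁰)) :
    E (g * atI k) = E g := by
  have := hE.right 1 (one_mem _) 1 k hk g
  rwa [sc_one, one_mul] at this

lemma E_sc (g : GA) (z : Kiˣ) : E (g * atI (sc z)) = E g := by
  have := hE.right 1 (one_mem _) z 1 one_mem_GO g
  rwa [mul_one] at this

lemma E_Kf (g : GA) {k : GL (Fin 2) Af} (hk : k ∈ Kf) : E (g * (k, 1)) = E g := by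
  have := hE.right k hk 1 1 one_mem_GO g
  rwa [sc_one, one_mul] at this

end

/-- the function `f = w E - E` -/
def f (E : GA → ℂ) : GA → ℂ := fun g => E (g * atI w) - E g

variable {E : GA → ℂ}

lemma f_left (hE : LevelOne E) (γ : GL (Fin 2) K) (g : GA) : f E (diagK γ * g) = f E g := by
  unfold f
  rw [mul_assoc, hE.left, hE.left]

lemma mul_lt_one_aux {a b : ℤᵐ⁰} (ha : a ≤ 1) (hb : b < 1) : a * b < 1 :=
  (mul_le_of_le_one_left' ha).trans_lt hb

lemma Iw_inv {F : Type} [Field F] (v : Valuation F ℤᵐ⁰) {g : GL (Fin 2) F} (hg : g ∈ Iw v) :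
    g⁻¹ ∈ Iw v := by
  refine ⟨inv_mem hg.1, ?_⟩
  have h1 : ((g⁻¹ * g : GL (Fin 2) F) : Matrix (Fin 2) (Fin 2) F) 1 0 = 0 := by
    rw [inv_mul_cancel]; simp
  have h0 : ((g⁻¹ * g : GL (Fin 2) F) : Matrix (Fin 2) (Fin 2) F) 0 0 = 1 := by
    rw [inv_mul_cancel]; simp
  rw [Units.val_mul, Matrix.mul_apply, Fin.sum_univ_two] at h1 h0
  have hc : v (g 1 0) < 1 := hg.2
  have e1 : v ((g⁻¹ : GL (Fin 2) F) 0 1 * g 1 0) < 1 := by
    rw [map_mul]
    exact mul_lt_one_aux (hg.1 0 1).2 hc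
  have e2 : v ((g⁻¹ : GL (Fin 2) F) 0 0 * g 0 0) = 1 := by
    have h2 : (g⁻¹ : GL (Fin 2) F) 0 0 * g 0 0 = 1 - (g⁻¹ : GL (Fin 2) F) 0 1 * g 1 0 := by
      linear_combination h0
    rw [h2, Valuation.map_one_sub_of_lt v e1]
  have e3 : v (g 0 0) = 1 := by
    refine le_antisymm (hg.1 0 0).1 ?_
    by_contra hlt
    push Not at hlt
    have : v ((g⁻¹ : GL (Fin 2) F) 0 0 * g 0 0) < 1 := by
      rw [map_mul]
      exact mul_lt_one_aux (hg.1 0 0).2 hlt
    exact absurd e2 this.ne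
  have e4 : (g⁻¹ : GL (Fin 2) F) 1 0 * g 0 0 = -((g⁻¹ : GL (Fin 2) F) 1 1 * g 1 0) := by
    linear_combination h1
  have e5 : v ((g⁻¹ : GL (Fin 2) F) 1 0) = v ((g⁻¹ : GL (Fin 2) F) 1 1 * g 1 0) := by
    have := congrArg v e4
    rwa [map_mul, e3, mul_one, Valuation.map_neg] at this
  rw [e5, map_mul]
  exact mul_lt_one_aux (hg.1 1 1).2 hc

lemma le_exp_neg_one {x : ℤᵐ⁰} (h : x < 1) : x ≤ exp (-1 : ℤ) := by
  rcases eq_or_ne x 0 with rfl | hx
  · exact zero_le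
  · rw [← exp_log hx] at h ⊢
    rw [← exp_zero, exp_lt_exp] at h
    rw [exp_le_exp]
    omega

lemma conj_entries {g : GL (Fin 2) Ki} (hg : g ∈ Iw (Valued.v : Valuation Ki ℤᵐ⁰))
    (hp : Valued.v ((pI : Kiˣ) : Ki) = exp (-1 : ℤ)) (i j : Fin 2) :
    Valued.v ((w⁻¹ * g * w : GL (Fin 2) Ki) i j) ≤ 1 := by
  have hw : w⁻¹ = (bor pI⁻¹ 0 1 * om : GL (Fin 2) Ki) := by
    rw [inv_eq_iff_mul_eq_one]
    ext i j
    fin_cases i <;> fin_cases j <;>
      simp [w, om, da, bor, Matrix.mul_apply, Fin.sum_univ_two]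
  have hpi : Valued.v (((pI⁻¹ : Kiˣ) : Ki)) = exp (1 : ℤ) := by
    rw [Units.val_inv_eq_inv_val, map_inv₀, hp, ← exp_neg, neg_neg]
  have e : (w⁻¹ * g * w : GL (Fin 2) Ki) i j =
      !![g 1 1, ((pI⁻¹ : Kiˣ) : Ki) * g 1 0; g 0 1 * ((pI : Kiˣ) : Ki), g 0 0] i j := by
    rw [hw]
    simp only [Units.val_mul, Matrix.mul_apply, Fin.sum_univ_two, w, om, da, bor]
    fin_cases i <;> fin_cases j <;> simp
    all_goals ring_nf
    all_goals simp [mul_assoc]
  rw [e]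
  have hc := le_exp_neg_one hg.2
  fin_cases i <;> fin_cases j
  · exact (hg.1 1 1).1
  · change Valued.v (((pI⁻¹ : Kiˣ) : Ki) * g 1 0) ≤ 1
    rw [map_mul, hpi]
    calc exp (1 : ℤ) * Valued.v (g 1 0) ≤ exp (1 : ℤ) * exp (-1 : ℤ) := mul_le_mul_right hc _
      _ = 1 := by rw [← exp_add]; simp
  · change Valued.v (g 0 1 * ((pI : Kiˣ) : Ki)) ≤ 1
    rw [map_mul, hp]
    exact mul_le_one' (hg.1 0 1).1 (by rw [← exp_zero, exp_le_exp]; norm_num)
  · exact (hg.1 0 0).1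

lemma conj_mem {g : GL (Fin 2) Ki} (hg : g ∈ Iw (Valued.v : Valuation Ki ℤᵐ⁰))
    (hp : Valued.v ((pI : Kiˣ) : Ki) = exp (-1 : ℤ)) :
    w⁻¹ * g * w ∈ GO (Valued.v : Valuation Ki ℤᵐ⁰) := by
  intro i j
  refine ⟨conj_entries hg hp i j, ?_⟩
  have h1 : (w⁻¹ * g * w)⁻¹ = w⁻¹ * g⁻¹ * w := by group
  rw [h1]
  exact conj_entries (Iw_inv _ hg) hp i j

lemma f_iw (hE : LevelOne E) (hp : Valued.v ((pI : Kiˣ) : Ki) = exp (-1 : ℤ))
    {g : GL (Fin 2) Ki} (hg : g ∈ Iw (Valued.v : Valuation Ki ℤᵐ⁰)) (y : GA) :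
    f E (y * atI g) = f E y := by
  unfold f
  rw [E_GO hE y hg.1]
  congr 1
  have h1 : y * atI g * atI w = y * atI w * atI (w⁻¹ * g * w) := by
    rw [mul_assoc, mul_assoc, ← map_mul, ← map_mul]
    congr 2
    group
  rw [h1, E_GO hE _ (conj_mem hg hp)]

lemma f_sc (hE : LevelOne E) (z : Kiˣ) (y : GA) : f E (y * atI (sc z)) = f E y := by
  unfold f
  rw [E_sc hE]
  congr 1
  have h1 : sc z * w = w * sc z := by
    ext i j
    fin_cases i <;> fin_cases j <;>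
      simp [w, om, da, sc, bor, Matrix.mul_apply, Fin.sum_univ_two, mul_comm]
  rw [mul_assoc, ← map_mul, h1, map_mul, ← mul_assoc, E_sc hE]

lemma f_al (hE : LevelOne E) (y : GA) : f E (y * atI (om * da pI)) = -f E y := by
  unfold f
  change E (y * atI w * atI w) - E (y * atI w) = -(E (y * atI w) - E y)
  rw [mul_assoc, ← map_mul, w_mul_w, E_sc hE]
  ring

lemma f_sum (hE : LevelOne E) (hT : ∀ g, Ti E g = 3 * E g + 3) (y : GA) :
    f E y + f E (y * atI om) + f E (y * atI (nU 1 * om)) = 3 := by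
  have h1 := hT y
  unfold Ti at h1
  unfold f
  have e1 : y * atI om * atI w = y * atI (da pI) := by
    rw [mul_assoc, ← map_mul, w, ← mul_assoc, om_mul_om, one_mul]
  have e2 : y * atI (nU 1 * om) * atI w = y * atI (nU 1 * da pI) := by
    rw [mul_assoc, ← map_mul, w, mul_assoc, ← mul_assoc om om, om_mul_om, one_mul]
  have e3 : E (y * atI om) = E y := E_GO hE y om_mem
  have e4 : E (y * atI (nU 1 * om)) = E y :=
    E_GO hE y (mul_mem (nU_mem (by rw [map_one])) om_mem)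
  rw [e1, e2, e3, e4]
  change E (y * atI (om * da pI)) - E y + (E (y * atI (da pI)) - E y) +
    (E (y * atI (nU 1 * da pI)) - E y) = 3
  linear_combination h1

lemma f_Kf (hE : LevelOne E) (y : GA) {k : GL (Fin 2) Af} (hk : k ∈ Kf) :
    f E (y * (k, 1)) = f E y := by
  unfold f
  rw [E_Kf hE y hk, mul_assoc, comm_atI, ← mul_assoc, E_Kf hE _ hk]

/-- the constants -/
def C : Submodule ℂ (GA → ℂ) := Submodule.span ℂ {fun _ => 1}

lemma mem_C {φ : GA → ℂ} : φ ∈ C ↔ ∃ c : ℂ, ∀ g, φ g = c := by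
  unfold C
  rw [Submodule.mem_span_singleton]
  constructor
  · rintro ⟨c, rfl⟩
    exact ⟨c, fun g => by simp⟩
  · rintro ⟨c, hc⟩
    exact ⟨c, by ext g; simp [hc g]⟩

instance : FiniteDimensional ℂ C := by unfold C; infer_instance

lemma C_stable (g : GA) : C ≤ C.comap (RR GA g) := by
  intro φ hφ
  obtain ⟨c, hc⟩ := mem_C.1 hφ
  exact mem_C.2 ⟨c, fun x => hc _⟩

/-- translates by finite adeles of `f` are harmonic modulo the constants -/
lemma harm_mod (hE : LevelOne E) (hT : ∀ g, Ti E g = 3 * E g + 3)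
    (hp : Valued.v ((pI : Kiˣ) : Ki) = exp (-1 : ℤ)) (h : GL (Fin 2) Af) :
    Harm Valued.v pI (Representation.quotient
      ((RR GA).comp atI : Representation ℂ (GL (Fin 2) Ki) (GA → ℂ)) C
      (fun g => C_stable (atI g))) (C.mkQ (RR GA (h, 1) (f E))) := by
  have key : ∀ (φ ψ : GA → ℂ), φ = ψ → C.mkQ φ = C.mkQ ψ := fun φ ψ h => by rw [h]
  refine ⟨?_, ?_, ?_, ?_⟩
  · intro g hg
    change C.mkQ (RR GA (atI g) (RR GA (h, 1) (f E))) = _
    apply key
    ext y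
    simp only [RR_apply]
    rw [mul_assoc, ← comm_atI, ← mul_assoc, f_iw hE hp hg]
  · intro z
    change C.mkQ (RR GA (atI (sc z)) (RR GA (h, 1) (f E))) = _
    apply key
    ext y
    simp only [RR_apply]
    rw [mul_assoc, ← comm_atI, ← mul_assoc, f_sc hE]
  · change C.mkQ (RR GA (atI (om * da pI)) (RR GA (h, 1) (f E))) = _
    rw [← map_neg]
    apply key
    ext y
    simp only [RR_apply, Pi.neg_apply]
    rw [mul_assoc, ← comm_atI, ← mul_assoc, f_al hE]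
  · change C.mkQ (RR GA (h, 1) (f E)) + C.mkQ (RR GA (atI om) (RR GA (h, 1) (f E))) +
      C.mkQ (RR GA (atI (nU 1 * om)) (RR GA (h, 1) (f E))) = 0
    rw [← map_add, ← map_add, Submodule.mkQ_apply, Submodule.Quotient.mk_eq_zero, mem_C]
    refine ⟨3, fun y => ?_⟩
    simp only [RR_apply, Pi.add_apply]
    rw [mul_assoc y (atI om), ← comm_atI, mul_assoc y (atI (nU 1 * om)), ← comm_atI, ← mul_assoc,
      ← mul_assoc, f_sum hE hT]

end P1

end Pool.Agent.T2h66.LL
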