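import Pool.Agent.T2h66.LL.P1

/-!
# The constituent with the Steinberg representation at `∞`, trivial elsewhere, part 2 (helper66)
-/

set_option autoImplicit false

noncomputable section

open scoped Polynomial WithZero
open IsDedekindDomain WithZero

namespace Pool.Agent.T2h66.LL

namespace P1

variable {E : GA → ℂ}

/-- the space generated by `f` -/
def W (E : GA → ℂ) : Submodule ℂ (GA → ℂ) := Submodule.span ℂ (Set.range fun g => RR GA g (f E))

lemma W_stable (g : GA) : ∀ φ ∈ W E, RR GA g φ ∈ W E := by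
  intro φ hφ
  refine Submodule.span_induction (p := fun z _ => RR GA g z ∈ W E) ?_ ?_ ?_ ?_ hφ
  · rintro _ ⟨h, rfl⟩
    refine Submodule.subset_span ⟨g * h, ?_⟩
    simp only [map_mul]
    rfl
  · rw [map_zero]; exact Submodule.zero_mem _
  · intro a b _ _ ha hb
    rw [map_add]; exact Submodule.add_mem _ ha hb
  · intro c a _ ha
    rw [map_smul]; exact Submodule.smul_mem _ c ha

/-- `W` as a subrepresentation -/
def WS (E : GA → ℂ) : Subrepresentation (RR GA) := ⟨W E, fun g φ hφ => W_stable g φ hφ⟩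

/-- the subspace `N` -/
def N (E : GA → ℂ) : Submodule ℂ (GA → ℂ) :=
  Submodule.span ℂ {z | ∃ (g : GA) (h : GL (Fin 2) Af), z = RR GA g (RR GA (h, 1) (f E) - f E)} ⊔ C

lemma N_stable (g : GA) : ∀ φ ∈ N E, RR GA g φ ∈ N E := by
  intro φ hφ
  obtain ⟨a, ha, b, hb, rfl⟩ := Submodule.mem_sup.1 hφ
  rw [map_add]
  refine Submodule.add_mem_sup ?_ (C_stable g hb)
  refine Submodule.span_induction (p := fun z _ => RR GA g z ∈ Submodule.span ℂ
    {z | ∃ (g : GA) (h : GL (Fin 2) Af), z = RR GA g (RR GA (h, 1) (f E) - f E)}) ?_ ?_ ?_ ?_ ha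
  · rintro _ ⟨g', h, rfl⟩
    refine Submodule.subset_span ⟨g * g', h, ?_⟩
    rw [map_mul]; rfl
  · rw [map_zero]; exact Submodule.zero_mem _
  · intro a b _ _ ha hb
    rw [map_add]; exact Submodule.add_mem _ ha hb
  · intro c a _ ha
    rw [map_smul]; exact Submodule.smul_mem _ c ha

/-- the averaging operator -/
def avg {n : ℕ} (k : Fin n → GL (Fin 2) Af) : (GA → ℂ) →ₗ[ℂ] (GA → ℂ) :=
  ∑ j, RR GA (k j, 1)

lemma avg_apply {n : ℕ} (k : Fin n → GL (Fin 2) Af) (φ : GA → ℂ) (y : GA) :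
    avg k φ y = ∑ j, φ (y * (k j, 1)) := by
  unfold avg
  rw [LinearMap.sum_apply, Finset.sum_apply]
  rfl

/-- the averages of `E` over `k` are as they should be for the elements of `s` -/
def Good (E : GA → ℂ) {n : ℕ} (k : Fin n → GL (Fin 2) Af) (s : Finset (GL (Fin 2) Af)) : Prop :=
  (∀ j, k j ∈ Kf) ∧ ∀ h ∈ s, ∃ b : ℂ, ∀ g : GA, ∑ j, E (g * (k j * h, 1)) = n * E g + b

lemma avg_f {n : ℕ} {k : Fin n → GL (Fin 2) Af} {s : Finset (GL (Fin 2) Af)} (hG : Good E k s)
    {h : GL (Fin 2) Af} (hh : h ∈ s) (y : GA) :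
    ∑ j, f E (y * (k j * h, 1)) = n * f E y := by
  obtain ⟨b, hb⟩ := hG.2 h hh
  unfold f
  rw [Finset.sum_sub_distrib, hb]
  have h1 : ∀ j, E (y * (k j * h, 1) * atI w) = E (y * atI w * (k j * h, 1)) := by
    intro j
    rw [mul_assoc, comm_atI, ← mul_assoc]
  rw [Finset.sum_congr rfl fun j _ => h1 j, hb]
  ring

lemma avg_f_one (hE : LevelOne E) {n : ℕ} {k : Fin n → GL (Fin 2) Af} (hk : ∀ j, k j ∈ Kf)
    (y : GA) : ∑ j, f E (y * (k j, 1)) = n * f E y := by
  rw [Finset.sum_congr rfl fun j _ => f_Kf hE y (hk j)]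
  simp

/-- the averages of the elements of `N` are constant -/
lemma avg_N (φ : GA → ℂ) (hφ : φ ∈ N E) : ∃ s : Finset (GL (Fin 2) Af),
    ∀ (n : ℕ) (k : Fin n → GL (Fin 2) Af), Good E k s → avg k φ ∈ C := by
  classical
  obtain ⟨a, ha, b, hb, rfl⟩ := Submodule.mem_sup.1 hφ
  have hbC : ∀ (n : ℕ) (k : Fin n → GL (Fin 2) Af), avg k b ∈ C := by
    intro n k
    obtain ⟨c, hc⟩ := mem_C.1 hb
    refine mem_C.2 ⟨n * c, fun g => ?_⟩
    rw [avg_apply, Finset.sum_congr rfl fun j _ => hc _]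
    simp
  have key : ∃ s : Finset (GL (Fin 2) Af),
      ∀ (n : ℕ) (k : Fin n → GL (Fin 2) Af), Good E k s → avg k a ∈ C := by
    refine Submodule.span_induction (p := fun z _ => ∃ s : Finset (GL (Fin 2) Af),
      ∀ (n : ℕ) (k : Fin n → GL (Fin 2) Af), Good E k s → avg k z ∈ C) ?_ ?_ ?_ ?_ ha
    · rintro _ ⟨g, h, rfl⟩
      refine ⟨{g.1 * h, g.1}, fun n k hG => ?_⟩
      refine mem_C.2 ⟨0, fun y => ?_⟩
      rw [avg_apply]
      have e1 : ∀ j, RR GA g (RR GA (h, 1) (f E) - f E) (y * (k j, 1)) =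
          f E (y * atI g.2 * (k j * (g.1 * h), 1)) - f E (y * atI g.2 * (k j * g.1, 1)) := by
        intro j
        have hx : y * (k j, (1 : GL (Fin 2) Ki)) * g = y * atI g.2 * (k j * g.1, 1) := by
          rw [mul_assoc, mul_assoc]
          congr 1
          ext1 <;> simp [atI]
        have hx2 : y * (k j, (1 : GL (Fin 2) Ki)) * g * (h, 1) =
            y * atI g.2 * (k j * (g.1 * h), 1) := by
          rw [hx, mul_assoc]
          congr 1
          ext1 <;> simp [mul_assoc]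
        change f E (y * (k j, 1) * g * (h, 1)) - f E (y * (k j, 1) * g) = _
        rw [hx2, hx]
      rw [Finset.sum_congr rfl fun j _ => e1 j, Finset.sum_sub_distrib,
        avg_f hG (by simp), avg_f hG (by simp), sub_self]
    · refine ⟨∅, fun n k _ => ?_⟩
      rw [map_zero]; exact Submodule.zero_mem _
    · rintro x y _ _ ⟨s, hs⟩ ⟨t, ht⟩
      refine ⟨s ∪ t, fun n k hG => ?_⟩
      rw [map_add]
      exact Submodule.add_mem _
        (hs n k ⟨hG.1, fun h hh => hG.2 h (Finset.mem_union_left _ hh)⟩)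
        (ht n k ⟨hG.1, fun h hh => hG.2 h (Finset.mem_union_right _ hh)⟩)
    · rintro c x _ ⟨s, hs⟩
      refine ⟨s, fun n k hG => ?_⟩
      rw [map_smul]
      exact Submodule.smul_mem _ c (hs n k hG)
  obtain ⟨s, hs⟩ := key
  refine ⟨s, fun n k hG => ?_⟩
  rw [map_add]
  exact Submodule.add_mem _ (hs n k hG) (hbC n k)

lemma f_not_mem (hAV : S_AV) (hE : LevelOne E) (hT : ∀ g, Ti E g = 3 * E g + 3)
    (hne : E (atI (om * da pI)) ≠ E 1) : f E ∉ N E := by
  intro hf
  obtain ⟨s, hs⟩ := avg_N (f E) hf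
  obtain ⟨n, k, hn, hk, hkE⟩ := hAV s
  have h1 := hs n k ⟨hk, hkE E hE hT⟩
  obtain ⟨c, hc⟩ := mem_C.1 h1
  have h2 : ∀ y, (n : ℂ) * f E y = c := by
    intro y
    rw [← hc y, avg_apply, avg_f_one hE hk]
  have h3 := h2 1
  have h4 := h2 (1 * atI (om * da pI))
  rw [f_al hE] at h4
  have h5 : (n : ℂ) * f E 1 = 0 := by linear_combination (h3 - h4) / 2
  have h6 : f E 1 = 0 := by
    rcases mul_eq_zero.1 h5 with h | h
    · exact absurd (Nat.cast_eq_zero.1 h) hn.ne'
    · exact h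
  unfold f at h6
  rw [one_mul] at h6
  exact hne (sub_eq_zero.1 h6)

/-- `N` inside `W` -/
def NW (E : GA → ℂ) : Submodule ℂ (W E) := (N E).comap (W E).subtype

lemma NW_stable (g : GA) : NW E ≤ (NW E).comap ((WS E).toRepresentation g) := by
  intro x hx
  exact N_stable g x.1 hx

/-- the representation `W / N` -/
def rho (E : GA → ℂ) : Representation ℂ GA ((W E) ⧸ (NW E)) :=
  Representation.quotient (WS E).toRepresentation (NW E) NW_stable

/-- the vector `f` of `W` -/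
def fW (E : GA → ℂ) : W E := ⟨f E, Submodule.subset_span ⟨1, by
  change RR GA 1 (f E) = f E
  rw [map_one]; rfl⟩⟩

/-- the translate of `f` by a finite adele -/
def f0 (E : GA → ℂ) (h : GL (Fin 2) Af) : W E := (WS E).toRepresentation (h, 1) (fW E)

lemma gen_rho : Gen (rho E) ((NW E).mkQ (fW E)) := by
  unfold Gen
  rw [eq_top_iff]
  rintro x -
  obtain ⟨y, rfl⟩ := (NW E).mkQ_surjective x
  obtain ⟨y, hy⟩ := y
  have : ∀ y (hy : y ∈ W E), (NW E).mkQ ⟨y, hy⟩ ∈ Submodule.span ℂ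
      (Set.range fun g => rho E g ((NW E).mkQ (fW E))) := by
    intro y hy
    refine Submodule.span_induction (p := fun y hy => (NW E).mkQ ⟨y, hy⟩ ∈ Submodule.span ℂ
      (Set.range fun g => rho E g ((NW E).mkQ (fW E)))) ?_ ?_ ?_ ?_ hy
    · rintro _ ⟨g, rfl⟩
      exact Submodule.subset_span ⟨g, rfl⟩
    · exact Submodule.zero_mem _
    · intro a b ha hb h1 h2
      exact Submodule.add_mem _ h1 h2
    · intro c a ha h1
      exact Submodule.smul_mem _ c h1
  exact this y hy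

lemma trivial_fin_aux (h : GL (Fin 2) Af) (g : GA) :
    rho E (h, 1) (rho E g ((NW E).mkQ (fW E))) = rho E g ((NW E).mkQ (fW E)) := by
  have h1 : (h, (1 : GL (Fin 2) Ki)) * g = g * (g.1⁻¹ * h * g.1, 1) := by
    ext1 <;> simp [mul_assoc]
  rw [← Module.End.mul_apply, ← map_mul, h1, map_mul, Module.End.mul_apply]
  congr 1
  have hmem : f0 E (g.1⁻¹ * h * g.1) - fW E ∈ NW E := by
    refine Submodule.mem_sup_left (Submodule.subset_span ⟨1, g.1⁻¹ * h * g.1, ?_⟩)
    rw [map_one]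
    rfl
  have h2 : (NW E).mkQ (f0 E (g.1⁻¹ * h * g.1)) = (NW E).mkQ (fW E) := by
    rw [← sub_eq_zero, ← map_sub]
    exact (Submodule.Quotient.mk_eq_zero _).2 hmem
  exact h2

lemma trivial_fin (h : GL (Fin 2) Af) : rho E (h, 1) = 1 := by
  refine LinearMap.ext fun x => ?_
  have hx : x ∈ Submodule.span ℂ (Set.range fun g => rho E g ((NW E).mkQ (fW E))) := by
    have := gen_rho (E := E)
    unfold Gen at this
    rw [this]; trivial
  refine Submodule.span_induction (p := fun x _ => rho E (h, 1) x = (1 : Module.End ℂ _) x)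
    ?_ ?_ ?_ ?_ hx
  · rintro _ ⟨g, rfl⟩
    exact trivial_fin_aux h g
  · simp
  · intro a b _ _ ha hb
    rw [map_add, ha, hb, map_add]
  · intro c a _ ha
    rw [map_smul, ha, map_smul]

lemma gen_I : Gen ((rho E).comp atI : Representation ℂ (GL (Fin 2) Ki) _)
    ((NW E).mkQ (fW E)) := by
  have h1 := gen_rho (E := E)
  unfold Gen at h1 ⊢
  rw [eq_top_iff, ← h1, Submodule.span_le]
  rintro _ ⟨g, rfl⟩
  refine Submodule.subset_span ⟨g.2, ?_⟩
  change rho E (atI g.2) ((NW E).mkQ (fW E)) = rho E g ((NW E).mkQ (fW E))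
  have h2 : g = (g.1, 1) * atI g.2 := prod_split g.1 g.2
  conv_rhs => rw [h2]
  rw [map_mul, trivial_fin, one_mul]

/-- the translate of `f` by an element at `∞` -/
def fI (E : GA → ℂ) (h : GL (Fin 2) Ki) : W E := (WS E).toRepresentation (atI h) (fW E)

lemma harm_W (hE : LevelOne E) (hT : ∀ g, Ti E g = 3 * E g + 3)
    (hp : Valued.v ((pI : Kiˣ) : Ki) = exp (-1 : ℤ)) :
    Harm Valued.v pI ((rho E).comp atI : Representation ℂ (GL (Fin 2) Ki) _)
      ((NW E).mkQ (fW E)) := by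
  have key : ∀ (x y : W E), x = y → (NW E).mkQ x = (NW E).mkQ y := fun φ ψ h => by rw [h]
  refine ⟨?_, ?_, ?_, ?_⟩
  · intro g hg
    change (NW E).mkQ ((WS E).toRepresentation (atI g) (fW E)) = _
    apply key
    apply Subtype.ext
    ext y
    exact f_iw hE hp hg y
  · intro z
    change (NW E).mkQ ((WS E).toRepresentation (atI (sc z)) (fW E)) = _
    apply key
    apply Subtype.ext
    ext y
    exact f_sc hE z y
  · change (NW E).mkQ ((WS E).toRepresentation (atI (om * da pI)) (fW E)) = _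
    rw [← map_neg]
    apply key
    apply Subtype.ext
    ext y
    exact f_al hE y
  · have hmem : fW E + fI E om + fI E (nU 1 * om) ∈ NW E := by
      refine Submodule.mem_sup_right (mem_C.2 ⟨3, fun y => ?_⟩)
      exact f_sum hE hT y
    have h2 : (NW E).mkQ (fW E + fI E om + fI E (nU 1 * om)) = 0 :=
      (Submodule.Quotient.mk_eq_zero _).2 hmem
    rw [map_add, map_add] at h2
    exact h2

lemma f_smooth (hTP : S_TP) (hE : LevelOne E) (hp : Valued.v ((pI : Kiˣ) : Ki) = exp (-1 : ℤ)) :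
    f E ∈ Sm (RR GA) := by
  obtain ⟨U, hU, hU'⟩ := hTP.1
  obtain ⟨U2, hU2, hU2'⟩ := hTP.2.2.1 1 one_ne_zero
  refine ⟨U2.prod U, ?_, ?_⟩
  · rw [Subgroup.coe_prod]
    exact hU2.prod hU
  · rintro ⟨a, b⟩ ⟨ha, hb⟩
    ext y
    rw [RR_apply, prod_split, ← mul_assoc, f_iw hE hp ?_, f_Kf hE _ (hU2' a ha).1]
    have h1 : b ∈ Gr Valued.v 1 := hU' hb
    refine ⟨h1.1, ?_⟩
    have h2 := h1.2 1 0
    rw [Matrix.one_apply_ne (by decide), sub_zero] at h2
    refine h2.trans_lt ?_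
    rw [← exp_zero, exp_lt_exp]
    norm_num

/-- elements of `W` are automorphic forms -/
lemma W_aut (hLD : S_LD) (hTP : S_TP) (hIF : S_IF) (hE : LevelOne E)
    (hT : ∀ g, Ti E g = 3 * E g + 3) (φ : GA → ℂ) (hφ : φ ∈ W E) : IsAutForm φ := by
  classical
  have hp := hIF.1
  refine ⟨?_, ?_, Or.inl ?_⟩
  · intro γ g
    refine Submodule.span_induction (p := fun φ _ => φ (diagK γ * g) = φ g) ?_ ?_ ?_ ?_ hφ
    · rintro _ ⟨h, rfl⟩
      simp only [RR_apply]
      rw [mul_assoc, f_left hE]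
    · rfl
    · intro a b _ _ ha hb
      simp only [Pi.add_apply, ha, hb]
    · intro c a _ ha
      simp only [Pi.smul_apply, ha]
  · have h1 : φ ∈ Sm (RR GA) := by
      have h2 : W E ≤ Sm (RR GA) := by
        unfold W
        rw [Submodule.span_le]
        rintro _ ⟨g, rfl⟩
        exact Sm_stable _ g (f_smooth hTP hE hp)
      exact h2 hφ
    obtain ⟨U, hU, hU'⟩ := h1
    exact ⟨U, hU, fun u hu g => congrFun (hU' u hu) g⟩
  · have h1 : ∃ s : Finset (GL (Fin 2) Af), φ ∈ Submodule.span ℂ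
        {z | ∃ x ∈ s.image (fun h => RR GA (h, 1) (f E)), ∃ g : GL (Fin 2) Ki,
          z = ((RR GA).comp atI : Representation ℂ (GL (Fin 2) Ki) (GA → ℂ)) g x} := by
      refine Submodule.span_induction (p := fun φ _ => ∃ s : Finset (GL (Fin 2) Af),
        φ ∈ Submodule.span ℂ
        {z | ∃ x ∈ s.image (fun h => RR GA (h, 1) (f E)), ∃ g : GL (Fin 2) Ki,
          z = ((RR GA).comp atI : Representation ℂ (GL (Fin 2) Ki) (GA → ℂ)) g x})
          ?_ ?_ ?_ ?_ hφ
      · rintro _ ⟨g, rfl⟩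
        refine ⟨{g.1}, Submodule.subset_span ⟨RR GA (g.1, 1) (f E), by simp, g.2, ?_⟩⟩
        ext y
        change f E (y * g) = f E (y * atI g.2 * (g.1, 1))
        rw [mul_assoc, ← comm_atI, ← prod_split]
      · exact ⟨∅, Submodule.zero_mem _⟩
      · rintro a b _ _ ⟨s, hs⟩ ⟨t, ht⟩
        refine ⟨s ∪ t, Submodule.add_mem _ ?_ ?_⟩
        · refine Submodule.span_mono ?_ hs
          rintro z ⟨x, hx, g, rfl⟩
          exact ⟨x, by rw [Finset.image_union]; exact Finset.mem_union_left _ hx, g, rfl⟩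
        · refine Submodule.span_mono ?_ ht
          rintro z ⟨x, hx, g, rfl⟩
          exact ⟨x, by rw [Finset.image_union]; exact Finset.mem_union_right _ hx, g, rfl⟩
      · rintro c a _ ⟨s, hs⟩
        exact ⟨s, Submodule.smul_mem _ c hs⟩
    obtain ⟨s, hs⟩ := h1
    refine adm_of_harm hLD hTP hIF _ C (fun g => C_stable (atI g)) _ ?_ φ hs
    intro x hx
    obtain ⟨h, _, rfl⟩ := Finset.mem_image.1 hx
    exact harm_mod hE hT hp h

/-- the representation as an element of `Irr` -/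
def irr (E : GA → ℂ) (h1 : (rho E).IsIrreducible)
    (h2 : ∀ x : (W E) ⧸ (NW E), ∃ U : Subgroup GA, IsOpen (U : Set GA) ∧ ∀ u ∈ U, rho E u x = x) :
    Irr GA where
  V := (W E) ⧸ (NW E)
  ρ := rho E
  irreducible := h1
  smooth := h2

end P1

/-- P1 -/
theorem t_P1 : S_LB → S_LD → S_FE → S_AV → S_TP → S_IF → S_P1 := by
  intro hLB hLD hFE hAV hTP hIF
  obtain ⟨E, hE, hT, hne⟩ := hFE
  have hp := hIF.1
  have hx0 : (P1.NW E).mkQ (P1.fW E) ≠ 0 := by
    intro h
    rw [Submodule.mkQ_apply, Submodule.Quotient.mk_eq_zero] at h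
    exact P1.f_not_mem hAV hE hT hne h
  have hirr := hLB Ki Valued.v pI hp hIF.2.1 _ _ _ (P1.harm_W hE hT hp) hx0 P1.gen_I
  have hsm : ∀ x : (P1.W E) ⧸ (P1.NW E), ∃ U : Subgroup GA, IsOpen (U : Set GA) ∧
      ∀ u ∈ U, P1.rho E u x = x := by
    intro x
    have h1 : (P1.NW E).mkQ (P1.fW E) ∈ Sm (P1.rho E) := by
      obtain ⟨U, hU, hU'⟩ := P1.f_smooth hTP hE hp
      refine ⟨U, hU, fun u hu => ?_⟩
      change (P1.NW E).mkQ ((P1.WS E).toRepresentation u (P1.fW E)) = _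
      congr 1
      exact Subtype.ext (hU' u hu)
    have h2 := Sm_eq_top (P1.rho E) h1 P1.gen_rho
    have h3 : x ∈ Sm (P1.rho E) := by rw [h2]; trivial
    exact h3
  refine ⟨P1.irr E (irr_comp _ atI hirr) hsm, ?_, P1.trivial_fin, (P1.NW E).mkQ (P1.fW E), hx0,
    P1.harm_W hE hT hp, P1.gen_I⟩
  · refine ⟨P1.WS E, fun φ hφ => P1.W_aut hLD hTP hIF hE hT φ hφ, ?_⟩
    refine ⟨⟨(P1.NW E).mkQ, fun g => ?_⟩, (P1.NW E).mkQ_surjective⟩
    rfl

end Pool.Agent.T2h66.LL
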