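import Pool.Agent.T2h66.LL.Defs

/-!
# Statements of the tasks of the project `MP_5ae62c_nt` (helper66)

Every task is a `Prop` `S_X`; a proof is a theorem `t_X : S_X`, or `t_X : S_Y → S_X` when it uses
another task.
-/

set_option autoImplicit false

noncomputable section

open scoped Polynomial WithZero
open IsDedekindDomain WithZero

namespace Pool.Agent.T2h66.LL

/-! ### Elements of `GL_2` -/

/-- `(0 1; 1 0)` -/
def om {R : Type} [CommRing R] : GL (Fin 2) R where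
  val := !![0, 1; 1, 0]
  inv := !![0, 1; 1, 0]
  val_inv := by ext i j; fin_cases i <;> fin_cases j <;> simp [Matrix.mul_apply, Fin.sum_univ_two]
  inv_val := by ext i j; fin_cases i <;> fin_cases j <;> simp [Matrix.mul_apply, Fin.sum_univ_two]

/-- `(a 0; 0 1)` -/
def da {R : Type} [CommRing R] (a : Rˣ) : GL (Fin 2) R := bor a 0 1

/-- scalar matrices -/
def sc {R : Type} [CommRing R] (z : Rˣ) : GL (Fin 2) R := bor z 0 z

/-! ### Local theory: a field with a discrete valuation and two elements in the residue field -/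

/-- the residue field has two elements -/
def Res2 {F : Type} [Field F] (v : Valuation F ℤᵐ⁰) : Prop := ∀ x, v x = 1 → v (x - 1) < 1

/-- the Iwahori subgroup -/
def Iw {F : Type} [Field F] (v : Valuation F ℤᵐ⁰) : Set (GL (Fin 2) F) :=
  {g | g ∈ GO v ∧ v (g 1 0) < 1}

/-- the principal congruence subgroup of level `r` -/
def Gr {F : Type} [Field F] (v : Valuation F ℤᵐ⁰) (r : ℕ) : Set (GL (Fin 2) F) :=
  {g | g ∈ GO v ∧ ∀ i j, v (g i j - (1 : Matrix (Fin 2) (Fin 2) F) i j) ≤ exp (-(r : ℤ))}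

section harm

variable {F : Type} [Field F] {V : Type} [AddCommGroup V] [Module ℂ V]

/-- harmonic vectors -/
structure Harm (v : Valuation F ℤᵐ⁰) (ϖ : Fˣ) (ρ : Representation ℂ (GL (Fin 2) F) V) (x : V) :
    Prop where
  iw : ∀ g ∈ Iw v, ρ g x = x
  sc : ∀ z : Fˣ, ρ (sc z) x = x
  al : ρ (om * da ϖ) x = -x
  sum : x + ρ om x + ρ (nU 1 * om) x = 0

/-- the vector of the ball `a + ϖ^m O` -/
def vb (ϖ : Fˣ) (ρ : Representation ℂ (GL (Fin 2) F) V) (x : V) (a : F) (m : ℤ) : V :=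
  ρ (nU a * da (ϖ ^ m)) x

/-- the product of the operators `1 + ρ(1 ϖ^(r+i); 0 1)`, `i < n` -/
def Pop (ϖ : Fˣ) (ρ : Representation ℂ (GL (Fin 2) F) V) (r : ℤ) : ℕ → V →ₗ[ℂ] V
  | 0 => LinearMap.id
  | n + 1 => Pop ϖ ρ r n ∘ₗ (LinearMap.id + ρ (nU ((ϖ ^ (r + (n : ℤ)) : Fˣ) : F)))

/-- every subrepresentation which contains `x` is everything -/
def Gen {G : Type} [Group G] (ρ : Representation ℂ G V) (x : V) : Prop :=
  Submodule.span ℂ (Set.range fun g => ρ g x) = ⊤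

end harm

/-- LA: formulas for the vectors of balls -/
def S_LA : Prop := ∀ (F : Type) [Field F] (v : Valuation F ℤᵐ⁰) (ϖ : Fˣ), v ϖ = exp (-1 : ℤ) →
  Res2 v → ∀ (V : Type) [AddCommGroup V] [Module ℂ V] (ρ : Representation ℂ (GL (Fin 2) F) V)
  (x : V), Harm v ϖ ρ x →
    (∀ (a b : F) (m : ℤ), v b ≤ exp (-m) → vb ϖ ρ x (a + b) m = vb ϖ ρ x a m) ∧
    (∀ (a : F) (m : ℤ), vb ϖ ρ x a m =
      vb ϖ ρ x a (m + 1) + vb ϖ ρ x (a + ((ϖ ^ m : Fˣ) : F)) (m + 1)) ∧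
    (∀ m : ℤ, ρ om (vb ϖ ρ x 0 m) = -vb ϖ ρ x 0 (1 - m)) ∧
    (∀ (a : F) (m k : ℤ), v a = exp (-k) → k < m →
      ρ om (vb ϖ ρ x a m) = vb ϖ ρ x a⁻¹ (m - 2 * k)) ∧
    (∀ (α δ : Fˣ) (β a : F) (m j : ℤ), v ((α / δ : Fˣ) : F) = exp (-j) →
      ρ (bor α β δ) (vb ϖ ρ x a m) = vb ϖ ρ x ((α * a + β) / δ) (m + j)) ∧
    (∀ g : GL (Fin 2) F, ∃ s : ℂ, (s = 1 ∨ s = -1) ∧ ∃ (a : F) (m : ℤ),
      ρ g x = s • vb ϖ ρ x a m)

/-- LP: averages over unipotent groups -/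
def S_LP : Prop := ∀ (F : Type) [Field F] (v : Valuation F ℤᵐ⁰) (ϖ : Fˣ), v ϖ = exp (-1 : ℤ) →
  Res2 v → ∀ (V : Type) [AddCommGroup V] [Module ℂ V] (ρ : Representation ℂ (GL (Fin 2) F) V)
  (x : V), Harm v ϖ ρ x →
    (∀ (a : F) (r : ℤ) (n j : ℕ), j ≤ n →
      Pop ϖ ρ r n (vb ϖ ρ x a (r + (j : ℤ))) = (2 : ℂ) ^ (n - j) • vb ϖ ρ x a r) ∧
    (∀ (a b : F) (j : ℤ), v (a * b) < 1 → v b * exp (-j) < 1 →
      ρ (om * nU b * om) (vb ϖ ρ x a j) = vb ϖ ρ x (a / (1 + a * b)) j)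

/-- LB: a representation generated by a nonzero harmonic vector is irreducible -/
def S_LB : Prop := ∀ (F : Type) [Field F] (v : Valuation F ℤᵐ⁰) (ϖ : Fˣ), v ϖ = exp (-1 : ℤ) →
  Res2 v → ∀ (V : Type) [AddCommGroup V] [Module ℂ V] (ρ : Representation ℂ (GL (Fin 2) F) V)
  (x : V), Harm v ϖ ρ x → x ≠ 0 → Gen ρ x → ρ.IsIrreducible

/-- LC: two representations generated by nonzero harmonic vectors are isomorphic -/
def S_LC : Prop := ∀ (F : Type) [Field F] (v : Valuation F ℤᵐ⁰) (ϖ : Fˣ), v ϖ = exp (-1 : ℤ) →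
  Res2 v → ∀ (V W : Type) [AddCommGroup V] [Module ℂ V] [AddCommGroup W] [Module ℂ W]
  (ρ : Representation ℂ (GL (Fin 2) F) V) (σ : Representation ℂ (GL (Fin 2) F) W)
  (x : V) (y : W), Harm v ϖ ρ x → x ≠ 0 → Gen ρ x → Harm v ϖ σ y → y ≠ 0 → Gen σ y →
    ∃ e : ρ.Equiv σ, e x = y

/-- LD: admissibility, for finitely many harmonic vectors -/
def S_LD : Prop := ∀ (F : Type) [Field F] (v : Valuation F ℤᵐ⁰) (ϖ : Fˣ), v ϖ = exp (-1 : ℤ) →
  Res2 v → ∀ (V : Type) [AddCommGroup V] [Module ℂ V] (ρ : Representation ℂ (GL (Fin 2) F) V)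
  (s : Finset V), (∀ x ∈ s, Harm v ϖ ρ x) → ∀ r : ℕ,
    ∃ E : Submodule ℂ V, FiniteDimensional ℂ E ∧
      ∀ y ∈ Submodule.span ℂ {z | ∃ x ∈ s, ∃ g : GL (Fin 2) F, z = ρ g x},
        (∀ u ∈ Gr v r, ρ u y = y) → y ∈ E

/-- LE: no nonzero vector is fixed by `GL_2(O)` -/
def S_LE : Prop := ∀ (F : Type) [Field F] (v : Valuation F ℤᵐ⁰) (ϖ : Fˣ), v ϖ = exp (-1 : ℤ) →
  Res2 v → ∀ (V : Type) [AddCommGroup V] [Module ℂ V] (ρ : Representation ℂ (GL (Fin 2) F) V)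
  (x : V), Harm v ϖ ρ x → Gen ρ x → ∀ y : V, (∀ u ∈ GO v, ρ u y = y) → y = 0

/-! ### Arithmetic of `A = F_2[t]` -/

/-- `A → Af` -/
def aF : A →+* Af := (algebraMap K Af).comp (algebraMap A K)

/-- `A → Ki` -/
def aI : A →+* Ki := (algebraMap K Ki).comp (algebraMap A K)

/-- `t` in `Ki` -/
def tI : Kiˣ := Units.mk0 (algebraMap K Ki RatFunc.X)
  ((map_ne_zero (algebraMap K Ki)).2 RatFunc.X_ne_zero)

/-- the uniformizer `1/t` of `Ki` -/
def pI : Kiˣ := tI⁻¹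

/-- AP: strong approximation, integral form -/
def S_AP : Prop := ∀ (o : Af) (N : A), N ≠ 0 → (∀ v : Pl, Valued.v (o v) ≤ 1) →
  ∃ a : A, ∀ v : Pl, Valued.v ((o - aF a) v) ≤ Valued.v (aF N v)

/-- AQ: every finite adele has a nonzero multiple by an element of `A` which is integral, and
`𝔸_f = K + Ô` -/
def S_AQ : Prop :=
  (∀ b : Af, ∃ N : A, N ≠ 0 ∧ ∀ v : Pl, Valued.v ((aF N * b) v) ≤ 1) ∧
  ∀ b : Af, ∃ c : K, ∀ v : Pl, Valued.v ((b - algebraMap K Af c) v) ≤ 1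

/-- ID: the class number of `A` is one, for ideles -/
def S_ID : Prop := ∀ d : Afˣ, ∃ c : Kˣ, ∀ v : Pl,
  Valued.v ((d : Af) v) = Valued.v (algebraMap K Af c v)

/-- IN: elements of `K` which are integral at all places other than `∞` are in `A` -/
def S_IN : Prop := ∀ x : K, (∀ v : Pl, Valued.v (algebraMap K Af x v) ≤ 1) →
  ∃ a : A, algebraMap A K a = x

/-- IF: the place `∞` -/
def S_IF : Prop :=
  Valued.v ((pI : Kiˣ) : Ki) = exp (-1 : ℤ) ∧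
  Res2 (Valued.v : Valuation Ki ℤᵐ⁰) ∧
  (∀ x : Ki, ∃ a : A, Valued.v (x - aI a) < 1) ∧
  (∀ a : A, a ≠ 0 → Valued.v (aI a) = exp (a.natDegree : ℤ))

/-- `GL_2(Ô)` -/
def Kf : Subgroup (GL (Fin 2) Af) where
  carrier := {g | ∀ (v : Pl) (i j : Fin 2), Valued.v ((g i j) v) ≤ 1 ∧
    Valued.v (((g⁻¹ : GL (Fin 2) Af) i j) v) ≤ 1}
  one_mem' := by
    intro v i j
    rw [inv_one]
    have : Valued.v (((1 : GL (Fin 2) Af) i j) v) ≤ 1 := by
      rw [Units.val_one]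
      by_cases h : i = j
      · subst h
        rw [Matrix.one_apply_eq]
        exact le_of_eq (map_one (Valued.v : Valuation (Kv v) ℤᵐ⁰))
      · rw [Matrix.one_apply_ne h]
        exact (map_zero (Valued.v : Valuation (Kv v) ℤᵐ⁰)).le.trans zero_le_one
    exact ⟨this, this⟩
  mul_mem' := by
    intro g h hg hh v i j
    have key : ∀ a b : GL (Fin 2) Af, (∀ i j, Valued.v ((a i j) v) ≤ 1) →
        (∀ i j, Valued.v ((b i j) v) ≤ 1) →
        Valued.v (((a * b : GL (Fin 2) Af) i j) v) ≤ 1 := by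
      intro a b ha hb
      have h1 : ((a * b : GL (Fin 2) Af) i j) v = ∑ k, (a i k) v * (b k j) v := by
        rw [Units.val_mul, Matrix.mul_apply]
        exact map_sum (ev v) (fun k => a i k * b k j) Finset.univ
      rw [h1]
      refine Valuation.map_sum_le _ fun k _ => ?_
      rw [map_mul]
      exact mul_le_one' (ha i k) (hb k j)
    refine ⟨key g h (fun i j => (hg v i j).1) (fun i j => (hh v i j).1), ?_⟩
    rw [mul_inv_rev]
    exact key h⁻¹ g⁻¹ (fun i j => (hh v i j).2) (fun i j => (hg v i j).2)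
  inv_mem' := by
    intro g hg v i j
    rw [inv_inv]
    exact ⟨(hg v i j).2, (hg v i j).1⟩

/-- CN: class number one for `GL_2` -/
def S_CN : Prop := ∀ h : GL (Fin 2) Af, ∃ γ : GL (Fin 2) K, ∃ k ∈ Kf,
  h = Matrix.GeneralLinearGroup.map (algebraMap K Af) γ * k

/-- RE: reduction theory at `∞` -/
def S_RE : Prop := ∀ h : GL (Fin 2) Ki, ∃ γ : GL (Fin 2) A, ∃ n : ℕ, ∃ z : Kiˣ,
  ∃ k ∈ GO (Valued.v : Valuation Ki ℤᵐ⁰),
  h = Matrix.GeneralLinearGroup.map aI γ * da (tI ^ n) * sc z * k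

/-- UQ: the integer `n` is unique -/
def S_UQ : Prop := ∀ (m n : ℕ) (γ : GL (Fin 2) K) (z : Kiˣ), ∀ kf ∈ Kf,
  ∀ k ∈ GO (Valued.v : Valuation Ki ℤᵐ⁰),
  atI (da (tI ^ m)) = diagK γ * atI (da (tI ^ n)) * (kf, sc z * k) → m = n

/-- functions of level one on `GL_2(K) \ GL_2(𝔸)`, invariant under the centre at `∞` -/
structure LevelOne (E : GA → ℂ) : Prop where
  left : ∀ (γ : GL (Fin 2) K) (g : GA), E (diagK γ * g) = E g
  right : ∀ kf ∈ Kf, ∀ (z : Kiˣ), ∀ k ∈ GO (Valued.v : Valuation Ki ℤᵐ⁰), ∀ g : GA,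
    E (g * (kf, sc z * k)) = E g

/-- the Hecke operator at `∞` -/
def Ti (E : GA → ℂ) (g : GA) : ℂ :=
  E (g * atI (da pI)) + E (g * atI (nU 1 * da pI)) + E (g * atI (om * da pI))

/-- TI: the Hecke operator at `∞` preserves the functions of level one -/
def S_TI : Prop := ∀ E : GA → ℂ, LevelOne E → LevelOne (Ti E)

/-- UN: eigenfunctions of level one of `T_∞` with the eigenvalue `3` are constant -/
def S_UN : Prop := ∀ E : GA → ℂ, LevelOne E → (∀ g, Ti E g = 3 * E g) → ∀ g, E g = E 1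

/-- FE: the function `4 · 2^n - 3 n` of the invariant `n` -/
def S_FE : Prop := ∃ E : GA → ℂ, LevelOne E ∧ (∀ g, Ti E g = 3 * E g + 3) ∧
  E (atI (om * da pI)) ≠ E 1

/-- AV: averages of translates -/
def S_AV : Prop := ∀ s : Finset (GL (Fin 2) Af), ∃ (n : ℕ) (k : Fin n → GL (Fin 2) Af), 0 < n ∧
  (∀ j, k j ∈ Kf) ∧ ∀ E : GA → ℂ, LevelOne E → (∀ g, Ti E g = 3 * E g + 3) → ∀ h ∈ s,
    ∃ b : ℂ, ∀ g : GA, ∑ j, E (g * (k j * h, 1)) = n * E g + b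

/-- TP: topology of the groups -/
def S_TP : Prop :=
  (∃ U : Subgroup (GL (Fin 2) Ki), IsOpen (U : Set (GL (Fin 2) Ki)) ∧
    (U : Set (GL (Fin 2) Ki)) ⊆ Gr Valued.v 1) ∧
  (∀ U : Subgroup (GL (Fin 2) Ki), IsOpen (U : Set (GL (Fin 2) Ki)) → ∃ r : ℕ,
    Gr Valued.v r ⊆ (U : Set (GL (Fin 2) Ki))) ∧
  (∀ N : A, N ≠ 0 → ∃ U : Subgroup (GL (Fin 2) Af), IsOpen (U : Set (GL (Fin 2) Af)) ∧
    ∀ g ∈ U, g ∈ Kf ∧ ∀ (v : Pl) (i j : Fin 2),
      Valued.v ((g i j - (1 : Matrix (Fin 2) (Fin 2) Af) i j) v) ≤ Valued.v (aF N v)) ∧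
  (∀ U : AddSubgroup (Af × Ki), IsOpen (U : Set (Af × Ki)) → ∃ N : A, N ≠ 0 ∧ ∃ r : ℕ,
    ∀ x : Af × Ki, (∀ v : Pl, Valued.v (x.1 v) ≤ Valued.v (aF N v)) →
      Valued.v x.2 ≤ exp (-(r : ℤ)) → x ∈ U) ∧
  Continuous nA

/-- FQ: `𝔸 / (K + U)` is finite -/
def S_FQ : Prop := ∀ U : AddSubgroup (Af × Ki), IsOpen (U : Set (Af × Ki)) →
  Finite ((Af × Ki) ⧸ (KK ⊔ U))

/-- NO: the characters `|·|^s` -/
def S_NO : Prop := ∀ s : ℝ, ∃ χ : Afˣ × Kiˣ →* ℂˣ, IsHecke χ ∧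
  (∀ (v : Pl) (x : (Kv v)ˣ), ((chiV χ v x : ℂˣ) : ℂ) = ((nrm Valued.v (qv v) x ^ s : ℝ) : ℂ)) ∧
  ∀ x : Kiˣ, ((chiI χ x : ℂˣ) : ℂ) = ((nrm Valued.v 2 x ^ s : ℝ) : ℂ)

/-- C0: the function on `GL_2(Ô)` behind the cusp form: the product of the sign character of
`GL_2(F_2)` at `t = 0` and a matrix coefficient of the two-dimensional representation at `t = 1` -/
def S_C0 : Prop := ∃ c : GL (Fin 2) Af → ℂ, c 1 ≠ 0 ∧
  (∀ k ∈ Kf, c (nU 1 * k) = c k) ∧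
  (∀ k ∈ Kf, c k + c (om * k) + c (om * nU 1 * k) = 0) ∧
  (∀ k ∈ Kf, c k + c (nU (aF Polynomial.X) * k) = 0) ∧
  (∃ N : A, N ≠ 0 ∧ ∀ k ∈ Kf, ∀ k' ∈ Kf, (∀ (v : Pl) (i j : Fin 2),
    Valued.v ((k' i j - (1 : Matrix (Fin 2) (Fin 2) Af) i j) v) ≤ Valued.v (aF N v)) →
      c (k * k') = c k) ∧
  (∀ g : GL (Fin 2) Af, ∃ y : Af, ∃ κ ∈ Kf, nU y * g = g * κ ∧ ∀ k ∈ Kf, c (k * κ) = -c k)

/-- CF: the cusp form of level `t (t + 1)` -/
def S_CF : Prop := ∃ f : GA → ℂ, f 1 ≠ 0 ∧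
  (∀ (γ : GL (Fin 2) K) (g : GA), f (diagK γ * g) = f g) ∧
  (∃ N : A, N ≠ 0 ∧ ∀ kf ∈ Kf, (∀ (v : Pl) (i j : Fin 2),
    Valued.v ((kf i j - (1 : Matrix (Fin 2) (Fin 2) Af) i j) v) ≤ Valued.v (aF N v)) →
      ∀ g : GA, f (g * (kf, 1)) = f g) ∧
  Harm Valued.v pI ((RR GA).comp atI) f ∧
  ∀ g : GA, ∃ y : Af × Ki, ∀ x : Af × Ki, f (nA (x + y) * g) = -f (nA x * g)

/-- ZO: irreducible quotients of cyclic representations -/
def S_ZO : Prop := ∀ (G V : Type) [Group G] [AddCommGroup V] [Module ℂ V]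
  (ρ : Representation ℂ G V) (x : V), x ≠ 0 → Gen ρ x →
    ∃ N : Submodule ℂ V, ∃ hN : ∀ g, N ≤ N.comap (ρ g), x ∉ N ∧ (ρ.quotient N hN).IsIrreducible

/-- the trivial representation -/
def triv (G : Type) [Group G] [TopologicalSpace G] : Irr G where
  V := ℂ
  ρ := Representation.trivial ℂ G ℂ
  irreducible := by
    have : Nontrivial (Subrepresentation (Representation.trivial ℂ G ℂ)) := by
      refine ⟨⟨⊥, ⊤, fun h => ?_⟩⟩
      have h1 : (1 : ℂ) ∈ (⊤ : Subrepresentation (Representation.trivial ℂ G ℂ)) :=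
        Submodule.mem_top (R := ℂ)
      rw [← h] at h1
      exact one_ne_zero ((Submodule.mem_bot ℂ).1 h1)
    refine ⟨fun W => ?_⟩
    rcases eq_or_ne W.toSubmodule ⊥ with h | h
    · exact Or.inl (Subrepresentation.toSubmodule_injective h)
    · right
      apply Subrepresentation.toSubmodule_injective
      exact (IsSimpleOrder.eq_bot_or_eq_top (α := Submodule ℂ ℂ) W.toSubmodule).resolve_left h
  smooth := fun x => ⟨⊤, isOpen_univ, fun _ _ => rfl⟩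

/-- TV: the trivial representation is isobaric -/
def S_TV : Prop := IsIsobaric (triv GA)

/-- CO: components at `∞` -/
def S_CO : Prop := ∀ (π : Irr GA) (s : Set π.V),
  (∀ x ∈ s, Harm Valued.v pI (π.ρ.comp atI) x) →
  Submodule.span ℂ {z | ∃ x ∈ s, ∃ g : GL (Fin 2) Ki, z = π.ρ (atI g) x} = ⊤ →
  ∀ (σ : Irr (GL (Fin 2) Ki)) (y : σ.V), Harm Valued.v pI σ.ρ y → y ≠ 0 → Gen σ.ρ y →
    HasComp atI π σ

/-- P1: the automorphic representation `π` with the Steinberg representation at `∞` and the trivial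
representation at all other places -/
def S_P1 : Prop := ∃ π : Irr GA, IsAutomorphic π ∧ (∀ h : GL (Fin 2) Af, π.ρ (h, 1) = 1) ∧
  ∃ x : π.V, x ≠ 0 ∧ Harm Valued.v pI (π.ρ.comp atI) x ∧ Gen (π.ρ.comp atI) x

/-- P2: the cuspidal representation with the Steinberg representation at `∞` -/
def S_P2 : Prop := ∃ π : Irr GA, IsCuspidal π ∧ ∃ s : Set π.V,
  (∀ x ∈ s, Harm Valued.v pI (π.ρ.comp atI) x) ∧
  Submodule.span ℂ {z | ∃ x ∈ s, ∃ g : GL (Fin 2) Ki, z = π.ρ (atI g) x} = ⊤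

/-- the result: the negated form of Q1 -/
def S_MAIN : Prop :=
  ¬ ∃ l : Irr (GL (Fin 2) Ki) → Irr (GL (Fin 2) Ki), (∀ σ τ, Iso σ τ → Iso (l σ) (l τ)) ∧
    ∀ π π' : Irr GA, IsAutomorphic π → IsIsobaric π' → IsLift π π' →
      ∀ σ τ : Irr (GL (Fin 2) Ki), HasComp atI π σ → HasComp atI π' τ → Iso τ (l σ)

end Pool.Agent.T2h66.LL
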